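import Mathlib

set_option autoImplicit false

namespace MPaaa0df

open Finset Real

/-- primes below `m`, odd and not dividing `Δ` -/
def PP (Δ : ℤ) (m : ℕ) : Finset ℕ := m.primesBelow.filter (fun p : ℕ => p ≠ 2 ∧ ¬ ((p : ℤ) ∣ Δ))

lemma asym1 (C : ℝ) : ∃ m0 : ℕ, ∀ m : ℕ, m0 ≤ m → C * ((√(m : ℝ) + 1) * log m) ≤ m := by
  obtain ⟨m0, hm0⟩ := exists_nat_ge (max 1 (8 * C) ^ 4)
  refine ⟨m0, fun m hm => ?_⟩
  have hm' : max 1 (8 * C) ^ 4 ≤ (m : ℝ) := hm0.trans (by exact_mod_cast hm)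
  set u : ℝ := √(√(m : ℝ)) with hu
  have hm0' : (0 : ℝ) ≤ m := Nat.cast_nonneg _
  have hu2 : u ^ 2 = √(m : ℝ) := Real.sq_sqrt (Real.sqrt_nonneg _)
  have hu4 : u ^ 4 = m := by
    have : u ^ 4 = (u ^ 2) ^ 2 := by ring
    rw [this, hu2, Real.sq_sqrt hm0']
  have hu0 : 0 ≤ u := Real.sqrt_nonneg _
  have hmax : max 1 (8 * C) ≤ u := by
    have h0 : (0 : ℝ) ≤ max 1 (8 * C) := le_trans zero_le_one (le_max_left _ _)
    rw [← hu4] at hm'
    exact le_of_pow_le_pow_left₀ (by norm_num) hu0 hm'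
  have hu1 : 1 ≤ u := (le_max_left _ _).trans hmax
  have huC : 8 * C ≤ u := (le_max_right _ _).trans hmax
  have hlog : log m ≤ 4 * u := by
    rw [← hu4, Real.log_pow]
    have := Real.log_le_sub_one_of_pos (show 0 < u by linarith)
    push_cast; linarith
  have hlog0 : 0 ≤ log (m : ℝ) := by
    rw [← hu4, Real.log_pow]
    have := Real.log_nonneg hu1
    push_cast; linarith
  rw [← hu2]
  by_cases hC : C ≤ 0
  · have : C * ((u ^ 2 + 1) * log m) ≤ 0 := by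
      apply mul_nonpos_of_nonpos_of_nonneg hC
      positivity
    linarith
  · push Not at hC
    have h1 : (u ^ 2 + 1) * log m ≤ (2 * u ^ 2) * (4 * u) := by
      apply mul_le_mul _ hlog hlog0 (by positivity)
      nlinarith
    calc C * ((u ^ 2 + 1) * log m) ≤ C * ((2 * u ^ 2) * (4 * u)) :=
          mul_le_mul_of_nonneg_left h1 hC.le
      _ = (8 * C) * u ^ 3 := by ring
      _ ≤ u * u ^ 3 := mul_le_mul_of_nonneg_right huC (by positivity)
      _ = m := by rw [← hu4]; ring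

lemma asym1r {α : ℝ} (hα1 : α < 1) (C : ℝ) :
    ∃ m0 : ℕ, ∀ m : ℕ, m0 ≤ m → C * (((m : ℝ) ^ α + 1) * log m) ≤ m := by
  set β : ℝ := max α 0 with hβ
  have hβ0 : 0 ≤ β := le_max_right _ _
  have hβ1 : β < 1 := max_lt hα1 one_pos
  set r : ℝ := (1 - β) / 2 with hr
  have hrpos : 0 < r := by rw [hr]; linarith
  obtain ⟨m0, hm0⟩ := exists_nat_ge (max 1 (2 * max C 0 / r) ^ (1 / r))
  refine ⟨max m0 1, fun m hm => ?_⟩
  have hm1 : (1 : ℝ) ≤ m := by
    have : 1 ≤ m := (le_max_right _ _).trans hm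
    exact_mod_cast this
  have hm' : max 1 (2 * max C 0 / r) ^ (1 / r) ≤ (m : ℝ) :=
    hm0.trans (by exact_mod_cast (le_max_left _ _).trans hm)
  have hmpos : (0 : ℝ) < m := by linarith
  have hmax0 : (0 : ℝ) ≤ max 1 (2 * max C 0 / r) := le_trans zero_le_one (le_max_left _ _)
  have hmr : 2 * max C 0 / r ≤ (m : ℝ) ^ r := by
    refine (le_max_right 1 _).trans ?_
    calc max 1 (2 * max C 0 / r) = (max 1 (2 * max C 0 / r) ^ (1 / r)) ^ r := by
          rw [← Real.rpow_mul hmax0, one_div, inv_mul_cancel₀ hrpos.ne', Real.rpow_one]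
      _ ≤ (m : ℝ) ^ r := Real.rpow_le_rpow (Real.rpow_nonneg hmax0 _) hm' hrpos.le
  have hlog : log m ≤ (m : ℝ) ^ r / r := Real.log_le_rpow_div hmpos.le hrpos
  have hlog0 : 0 ≤ log (m : ℝ) := Real.log_nonneg hm1
  have hαβ : (m : ℝ) ^ α ≤ (m : ℝ) ^ β :=
    Real.rpow_le_rpow_of_exponent_le hm1 (le_max_left _ _)
  have hmβ : 1 ≤ (m : ℝ) ^ β := Real.one_le_rpow hm1 hβ0
  have hmα : 0 ≤ (m : ℝ) ^ α := Real.rpow_nonneg hmpos.le _
  have h1 : ((m : ℝ) ^ α + 1) * log m ≤ (2 * (m : ℝ) ^ β) * ((m : ℝ) ^ r / r) := by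
    apply mul_le_mul (by linarith) hlog hlog0 (by positivity)
  have hsplit : (m : ℝ) ^ β * (m : ℝ) ^ r * (m : ℝ) ^ r = m := by
    rw [← Real.rpow_add hmpos, ← Real.rpow_add hmpos]
    have : β + r + r = 1 := by rw [hr]; ring
    rw [this, Real.rpow_one]
  have h0 : 0 ≤ ((m : ℝ) ^ α + 1) * log m := by positivity
  calc C * (((m : ℝ) ^ α + 1) * log m) ≤ max C 0 * (((m : ℝ) ^ α + 1) * log m) :=
        mul_le_mul_of_nonneg_right (le_max_left _ _) h0
    _ ≤ max C 0 * ((2 * (m : ℝ) ^ β) * ((m : ℝ) ^ r / r)) :=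
        mul_le_mul_of_nonneg_left h1 (le_max_right _ _)
    _ = (2 * max C 0 / r) * ((m : ℝ) ^ β * (m : ℝ) ^ r) := by ring
    _ ≤ (m : ℝ) ^ r * ((m : ℝ) ^ β * (m : ℝ) ^ r) :=
        mul_le_mul_of_nonneg_right hmr (by positivity)
    _ = m := by rw [← hsplit]; rw [hsplit]; linear_combination hsplit

lemma asym2 (C : ℝ) : ∃ m0 : ℕ, ∀ m : ℕ, m0 ≤ m → C ≤ log m := by
  obtain ⟨m0, hm0⟩ := exists_nat_ge (Real.exp C)
  refine ⟨m0, fun m hm => ?_⟩
  have h : Real.exp C ≤ m := hm0.trans (by exact_mod_cast hm)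
  exact (Real.le_log_iff_exp_le (lt_of_lt_of_le (Real.exp_pos _) h)).2 h

lemma log_two_ge : (0.69 : ℝ) ≤ log 2 := by
  have := Real.log_two_gt_d9; linarith

/-- number of primes below m, lower bound -/
lemma primes_lower : ∃ m0 : ℕ, ∀ m : ℕ, m0 ≤ m → (m : ℝ) / (2 * log m) ≤ m.primesBelow.card := by
  obtain ⟨m1, h1⟩ := asym1 20
  obtain ⟨m2, h2⟩ := asym2 1
  refine ⟨max (max m1 m2) 3, fun m hm => ?_⟩
  have hm1 : m1 ≤ m := le_trans (le_trans (le_max_left _ _) (le_max_left _ _)) hm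
  have hm2 : m2 ≤ m := le_trans (le_trans (le_max_right _ _) (le_max_left _ _)) hm
  have hm3 : 3 ≤ m := le_trans (le_max_right _ _) hm
  have hA := h1 m hm1
  have hB := h2 m hm2
  have hmr : (3 : ℝ) ≤ m := by exact_mod_cast hm3
  have hs : 1 ≤ √(m : ℝ) := by
    rw [Real.one_le_sqrt]; linarith
  have hpi := Chebyshev.pi_ge m
  have hcard : ((Nat.primeCounting m : ℕ) : ℝ) ≤ m.primesBelow.card + 1 := by
    rw [Nat.primesBelow_card_eq_primeCounting', Nat.primeCounting_eq_primeCounting'_succ]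
    unfold Nat.primeCounting'
    rw [Nat.count_succ]
    split_ifs <;> push_cast <;> linarith
  have hlog1 : log ((m : ℝ) + 1) ≤ 2 * log m := by
    rw [← Real.log_rpow (by linarith), Real.rpow_two]
    apply Real.log_le_log (by linarith)
    nlinarith
  have hlm : 0 < log (m : ℝ) := by linarith
  rw [div_le_iff₀ hlm] at hpi
  rw [div_le_iff₀ (by linarith)]
  have hC : 20 * (2 * log m) ≤ m := by
    have : (1 + 1) * log m ≤ (√(m : ℝ) + 1) * log m := by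
      apply mul_le_mul_of_nonneg_right _ hlm.le
      linarith
    linarith
  have hl2 := log_two_ge
  have h5 : ((Nat.primeCounting m : ℕ) : ℝ) * log m ≤ (m.primesBelow.card + 1) * log m :=
    mul_le_mul_of_nonneg_right hcard hlm.le
  have h6 : (m : ℝ) * 0.69 ≤ m * log 2 := mul_le_mul_of_nonneg_left hl2 (by linarith)
  nlinarith

lemma omega_le {Δ : ℤ} (hΔ : Δ ≠ 0) {D : ℝ} (hD : |(Δ : ℝ)| ≤ D) (s : Finset ℕ)
    (hs : ∀ p ∈ s, p.Prime ∧ (p : ℤ) ∣ Δ) : (s.card : ℝ) ≤ 2 * log D := by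
  have h1 : ∏ p ∈ s, p ∣ Δ.natAbs := by
    apply Finset.prod_primes_dvd
    · intro p hp; exact (hs p hp).1.prime
    · intro p hp
      exact Int.natCast_dvd.1 (hs p hp).2
  have h2 : 2 ^ s.card ≤ Δ.natAbs := by
    calc 2 ^ s.card = ∏ _p ∈ s, 2 := by rw [Finset.prod_const]
      _ ≤ ∏ p ∈ s, p := Finset.prod_le_prod' (fun p hp => (hs p hp).1.two_le)
      _ ≤ Δ.natAbs := Nat.le_of_dvd (Int.natAbs_pos.2 hΔ) h1
  have h3 : (2 : ℝ) ^ s.card ≤ D := by
    calc (2 : ℝ) ^ s.card ≤ (Δ.natAbs : ℝ) := by exact_mod_cast h2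
      _ = |(Δ : ℝ)| := by rw [Nat.cast_natAbs, Int.cast_abs]
      _ ≤ D := hD
  have h4 : (s.card : ℝ) * log 2 ≤ log D := by
    rw [← Real.log_pow]
    exact Real.log_le_log (by positivity) h3
  have hl2 := log_two_ge
  have h5 : (s.card : ℝ) * 0.69 ≤ s.card * log 2 :=
    mul_le_mul_of_nonneg_left hl2 (Nat.cast_nonneg _)
  have h6 : (0 : ℝ) ≤ s.card := Nat.cast_nonneg _
  linarith

lemma PP_card {Δ : ℤ} (hΔ : Δ ≠ 0) {D : ℝ} (hD : |(Δ : ℝ)| ≤ D) (m : ℕ) :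
    (m.primesBelow.card : ℝ) ≤ (PP Δ m).card + 1 + 2 * log D := by
  classical
  have h1 : m.primesBelow ⊆ PP Δ m ∪ (({2} : Finset ℕ) ∪ m.primesBelow.filter (fun p : ℕ => (p : ℤ) ∣ Δ)) := by
    intro p hp
    unfold PP
    simp only [Finset.mem_union, Finset.mem_filter, Finset.mem_singleton]
    by_cases h2 : p = 2
    · right; left; exact h2
    · by_cases h3 : (p : ℤ) ∣ Δ
      · right; right; exact ⟨hp, h3⟩
      · left; exact ⟨hp, h2, h3⟩
  have h2 := Finset.card_le_card h1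
  have h3 := h2.trans (Finset.card_union_le _ _)
  have h4 := Finset.card_union_le ({2} : Finset ℕ) (m.primesBelow.filter (fun p : ℕ => (p : ℤ) ∣ Δ))
  rw [Finset.card_singleton] at h4
  have h5 := omega_le hΔ hD (m.primesBelow.filter (fun p : ℕ => (p : ℤ) ∣ Δ)) (by
    intro p hp
    rw [Finset.mem_filter] at hp
    exact ⟨Nat.prime_of_mem_primesBelow hp.1, hp.2⟩)
  have h6 : (m.primesBelow.card : ℝ) ≤ (PP Δ m).card +
      (1 + (m.primesBelow.filter (fun p : ℕ => (p : ℤ) ∣ Δ)).card) := by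
    exact_mod_cast h3.trans (Nat.add_le_add_left h4 _)
  linarith

end MPaaa0df
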