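import Mathlib

set_option autoImplicit false

namespace MPaaa0df

open Finset

section

variable {p : ℕ} [hpF : Fact p.Prime]

lemma sum_quadChar_mul_sub_one (hp : p ≠ 2) :
    ∑ v : ZMod p, quadraticChar (ZMod p) v * quadraticChar (ZMod p) (v - 1) = -1 := by
  have hchar : ringChar (ZMod p) ≠ 2 := by
    rw [ZMod.ringChar_zmod_n]; exact hp
  have hne : quadraticChar (ZMod p) ≠ 1 := quadraticChar_ne_one hchar
  have hJ := jacobiSum_nontrivial_inv (F := ZMod p) (R := ℤ) hne
  have hinv : (quadraticChar (ZMod p))⁻¹ = quadraticChar (ZMod p) :=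
    (quadraticChar_isQuadratic (ZMod p)).inv
  rw [hinv, jacobiSum] at hJ
  have h1 : quadraticChar (ZMod p) (-1) * quadraticChar (ZMod p) (-1) = 1 := by
    rw [← map_mul]; simp
  calc ∑ v : ZMod p, quadraticChar (ZMod p) v * quadraticChar (ZMod p) (v - 1)
      = ∑ v : ZMod p, quadraticChar (ZMod p) (-1) *
          (quadraticChar (ZMod p) v * quadraticChar (ZMod p) (1 - v)) := by
        apply Finset.sum_congr rfl
        intro v _
        have : v - 1 = (-1) * (1 - v) := by ring
        rw [this, map_mul]; ring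
    _ = quadraticChar (ZMod p) (-1) * (- quadraticChar (ZMod p) (-1)) := by
        rw [← Finset.mul_sum, hJ]
    _ = -1 := by rw [mul_neg, h1]

lemma sum_quadChar_mul_sub (hp : p ≠ 2) {D : ZMod p} (hD : D ≠ 0) :
    ∑ u : ZMod p, quadraticChar (ZMod p) u * quadraticChar (ZMod p) (u - D) = -1 := by
  rw [← sum_quadChar_mul_sub_one hp]
  symm
  apply Fintype.sum_bijective (fun v : ZMod p => D * v) (mulLeft_bijective₀ D hD)
  intro v
  have h2 : quadraticChar (ZMod p) D * quadraticChar (ZMod p) D = 1 := by
    rw [← map_mul, ← sq]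
    exact quadraticChar_sq_one hD |> fun h => by rw [map_pow]; exact h
  have : D * v - D = D * (v - 1) := by ring
  rw [this, map_mul, map_mul]
  linear_combination (-(quadraticChar (ZMod p) v * quadraticChar (ZMod p) (v - 1))) * h2

lemma sum_quadChar_sq_sub (hp : p ≠ 2) {D : ZMod p} (hD : D ≠ 0) :
    ∑ y : ZMod p, quadraticChar (ZMod p) (y ^ 2 - D) = -1 := by
  have hchar : ringChar (ZMod p) ≠ 2 := by
    rw [ZMod.ringChar_zmod_n]; exact hp
  rw [← Finset.sum_fiberwise (s := (univ : Finset (ZMod p))) (g := fun y : ZMod p => y ^ 2)]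
  have h1 : ∀ u : ZMod p, ∑ y ∈ univ with y ^ 2 = u, quadraticChar (ZMod p) (y ^ 2 - D)
      = (quadraticChar (ZMod p) u + 1) * quadraticChar (ZMod p) (u - D) := by
    intro u
    have h2 := quadraticChar_card_sqrts hchar u
    rw [Finset.sum_congr (g := fun _ => quadraticChar (ZMod p) (u - D)) rfl]
    · rw [Finset.sum_const, nsmul_eq_mul, ← h2]
      congr 2
      apply congrArg
      ext y; simp
    · intro y hy
      rw [(Finset.mem_filter.1 hy).2]
  rw [Finset.sum_congr rfl (fun u _ => h1 u)]
  simp_rw [add_mul, one_mul, Finset.sum_add_distrib]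
  rw [sum_quadChar_mul_sub hp hD]
  have h3 : ∑ u : ZMod p, quadraticChar (ZMod p) (u - D) = 0 := by
    rw [← quadraticChar_sum_zero hchar]
    exact Fintype.sum_bijective (fun u : ZMod p => u - D) (Equiv.subRight D).bijective _ _
      (fun u => rfl)
  rw [h3]; ring

/-- complete sum of the quadratic character over a quadratic (or linear) polynomial of non-zero
discriminant -/
lemma sum_quadChar_poly (hp : p ≠ 2) (a b c : ZMod p) (hD : b ^ 2 - 4 * a * c ≠ 0) :
    ∑ x : ZMod p, quadraticChar (ZMod p) (a * x ^ 2 + b * x + c) = - quadraticChar (ZMod p) a := by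
  have hchar : ringChar (ZMod p) ≠ 2 := by
    rw [ZMod.ringChar_zmod_n]; exact hp
  by_cases ha : a = 0
  · subst ha
    have hb : b ≠ 0 := by
      rintro rfl; apply hD; ring
    rw [quadraticChar_zero, neg_zero, ← quadraticChar_sum_zero hchar]
    refine Fintype.sum_bijective (fun x : ZMod p => b * x + c) ?_ _ _ (fun x => ?_)
    · exact (Equiv.addRight c).bijective.comp (mulLeft_bijective₀ b hb)
    · congr 1; ring
  · have h2 : (2 : ZMod p) ≠ 0 := by
      have := (ZMod.ringChar_zmod_n p)
      intro h
      have h3 : ((2 : ℕ) : ZMod p) = 0 := by exact_mod_cast h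
      rw [ZMod.natCast_eq_zero_iff] at h3
      have := (Nat.prime_dvd_prime_iff_eq hpF.out Nat.prime_two).1 h3
      exact hp this
    have haa : quadraticChar (ZMod p) a * quadraticChar (ZMod p) a = 1 := by
      have := quadraticChar_sq_one ha
      rw [sq] at this; exact this
    have h22 : quadraticChar (ZMod p) 2 * quadraticChar (ZMod p) 2 = 1 := by
      have := quadraticChar_sq_one h2
      rw [sq] at this; exact this
    have key : ∀ x : ZMod p, quadraticChar (ZMod p) (a * x ^ 2 + b * x + c)
        = quadraticChar (ZMod p) a *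
          quadraticChar (ZMod p) ((2 * a * x + b) ^ 2 - (b ^ 2 - 4 * a * c)) := by
      intro x
      have : (2 * a * x + b) ^ 2 - (b ^ 2 - 4 * a * c)
          = 2 * 2 * a * (a * x ^ 2 + b * x + c) := by ring
      rw [this, map_mul, map_mul, map_mul]
      linear_combination (-(quadraticChar (ZMod p) (a * x ^ 2 + b * x + c))) * haa
        - (quadraticChar (ZMod p) (a * x ^ 2 + b * x + c)) *
          (quadraticChar (ZMod p) a * quadraticChar (ZMod p) a) * h22
    rw [Finset.sum_congr rfl (fun x _ => key x), ← Finset.mul_sum]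
    have : ∑ x : ZMod p, quadraticChar (ZMod p) ((2 * a * x + b) ^ 2 - (b ^ 2 - 4 * a * c))
        = -1 := by
      rw [← sum_quadChar_sq_sub hp hD]
      refine Fintype.sum_bijective (fun x : ZMod p => 2 * a * x + b) ?_ _ _ (fun x => rfl)
      exact (Equiv.addRight b).bijective.comp
        (mulLeft_bijective₀ (2 * a) (mul_ne_zero h2 ha))
    rw [this]; ring

end

end MPaaa0df
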