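import Mathlib

set_option autoImplicit false

namespace MPaaa0df

/-- the number of primes `p < y` such that `p` does not divide `d` and `d` is a square modulo `4p`;
for a fundamental discriminant `d` these are the primes `p < y` that split in `ℚ(√d)`. -/
noncomputable def splitCount (d : ℤ) (y : ℝ) : ℕ :=
  Set.ncard {p : ℕ | p.Prime ∧ (p : ℝ) < y ∧ ¬ ((p : ℤ) ∣ d) ∧
    ∃ x : ℤ, (4 * (p : ℤ)) ∣ x ^ 2 - d}

/-- the number of all primes `p < y`. -/
noncomputable def primeCount (y : ℝ) : ℕ :=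
  Set.ncard {p : ℕ | p.Prime ∧ (p : ℝ) < y}

/-- the threshold `(log|d|)² (log log|d|)²` of the problem. -/
noncomputable def threshold (d : ℤ) : ℝ :=
  Real.log (|(d : ℝ)|) ^ 2 * Real.log (Real.log (|(d : ℝ)|)) ^ 2

/-- the quantity `N(d)` of the problem. -/
noncomputable def N (d : ℤ) : ℕ := splitCount d (threshold d)

/-- `d` is typical (with parameters `β A δ B`): `N(d) ≥ B`, and for every
`y ∈ [(log|d|)^β, (log|d|)^A]` the proportion of split primes among all primes below `y` lies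
between `1/2 - δ` and `1/2 + δ`. -/
def Typical (β A δ : ℝ) (B : ℕ) (d : ℤ) : Prop :=
  B ≤ N d ∧ ∀ y : ℝ, Real.log (|(d : ℝ)|) ^ β ≤ y → y ≤ Real.log (|(d : ℝ)|) ^ A →
    |(splitCount d y : ℝ) - primeCount y / 2| ≤ δ * primeCount y

end MPaaa0df
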