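import Pool.Agent.W_MP_aaa0df_nt.Pigeon

set_option autoImplicit false

namespace MPaaa0df

open Finset

lemma sum_inv_le {P : Finset ℕ} (hP : ∀ p ∈ P, 2 ≤ p) {w : ℝ} (hw : 0 < w) :
    ∑ p ∈ P, (1 : ℝ) / p ≤ w + P.card / w := by
  have h1 : ∀ p ∈ P, (1 : ℝ) / p ≤ (if (p : ℝ) < w then 1 else 0) + 1 / w := by
    intro p hp
    have hp2 : (2 : ℝ) ≤ p := by exact_mod_cast hP p hp
    split_ifs with h
    · have h3 : (1 : ℝ) / p ≤ 1 := by
        rw [div_le_one (by linarith)]; linarith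
      have : 0 < 1 / w := by positivity
      linarith
    · push Not at h
      rw [zero_add]
      exact one_div_le_one_div_of_le hw h
  refine (Finset.sum_le_sum h1).trans ?_
  rw [Finset.sum_add_distrib, Finset.sum_const, nsmul_eq_mul, Finset.sum_ite,
    Finset.sum_const_zero, add_zero, Finset.sum_const, nsmul_eq_mul, mul_one]
  have h2 : (((P.filter (fun p : ℕ => (p : ℝ) < w)).card : ℕ) : ℝ) ≤ w := by
    have h3 : P.filter (fun p : ℕ => (p : ℝ) < w) ⊆ (Finset.range ⌈w⌉₊).erase 0 := by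
      intro p hp
      rw [Finset.mem_filter] at hp
      rw [Finset.mem_erase, Finset.mem_range]
      exact ⟨by have := hP p hp.1; omega, Nat.lt_ceil.2 hp.2⟩
    have h4 := Finset.card_le_card h3
    have hcpos : 0 < ⌈w⌉₊ := Nat.ceil_pos.2 hw
    rw [Finset.card_erase_of_mem (Finset.mem_range.2 hcpos), Finset.card_range] at h4
    have h5 : ((⌈w⌉₊ - 1 : ℕ) : ℝ) ≤ w := by
      rw [Nat.cast_sub hcpos, Nat.cast_one]
      have := Nat.ceil_lt_add_one hw.le
      linarith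
    calc (((P.filter (fun p : ℕ => (p : ℝ) < w)).card : ℕ) : ℝ) ≤ ((⌈w⌉₊ - 1 : ℕ) : ℝ) := by
          exact_mod_cast h4
      _ ≤ w := h5
  have h6 : (P.card : ℝ) * (1 / w) = P.card / w := by ring
  linarith

lemma P_count {P : Finset ℕ} {m : ℕ} (χ g : ℕ → ℤ → ℝ) (hprime : ∀ p ∈ P, p.Prime)
    (hlt : ∀ p ∈ P, p ≤ m) (hg : ∀ p ∈ P, IsMZ p (g p)) (hgc : ∀ p ∈ P, ∀ n, |g p n| ≤ 4 / 3)
    (hχ : ∀ p ∈ P, ∀ n, |χ p n - g p n| ≤ 1 / p)
    {ε : ℝ} (hε : 0 < ε) {q K b : ℕ} (hq : 16 / (3 * ε) ≤ q) (hb : 0 < b)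
    (hkb : q * K * b ≤ P.card) (hkb2 : P.card ≤ q * K * b + q * K)
    (hbig : 4 / 3 * ((q : ℝ) * K) + 8 / ε ≤ 3 * ε / 8 * P.card) (n₀ : ℤ) (Z : ℕ) :
    (((range Z).filter (fun n : ℕ => ε * P.card ≤ |∑ p ∈ P, χ p (n₀ + n)|)).card : ℝ) ≤
      (2 ^ q * (16 / (3 * ε)) ^ 2) ^ K * (Z / (b : ℝ) ^ K + (m : ℝ) ^ (2 * K)) := by
  have hcard : Fintype.card (Fin (q * K) × Fin b) ≤ Fintype.card ↥P := by
    rw [Fintype.card_prod, Fintype.card_fin, Fintype.card_fin, Fintype.card_coe]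
    exact hkb
  obtain ⟨e⟩ := Function.Embedding.nonempty_of_card_le hcard
  set T : Fin (q * K) × Fin b → ℕ := fun x => ((e x : ↥P) : ℕ) with hTdef
  have hTP : ∀ x, T x ∈ P := fun x => (e x).2
  have hT : Function.Injective T := by
    intro x y hxy
    exact e.injective (Subtype.ext hxy)
  have hδ : 0 < ε / 2 := by positivity
  have hK : (K : ℝ) ≤ 3 / 8 * (ε / 2) * ((q * K : ℕ) : ℝ) := by
    have h1 : 1 ≤ 3 / 8 * (ε / 2) * q := by
      rw [div_le_iff₀ (by positivity)] at hq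
      nlinarith
    push_cast
    have hK0 : (0 : ℝ) ≤ K := Nat.cast_nonneg _
    nlinarith
  have hmain := count_bound (K := K) (m := m) T g hT (fun x => hprime _ (hTP x))
    (fun x => hlt _ (hTP x)) (fun x => hg _ (hTP x)) (fun x n => hgc _ (hTP x) n) n₀ Z hδ hb hK
  have hsub : ((range Z).filter (fun n : ℕ => ε * P.card ≤ |∑ p ∈ P, χ p (n₀ + n)|)) ⊆
      ((range Z).filter (fun n : ℕ => ε / 2 * (((q * K : ℕ) : ℝ) * b) ≤
      |∑ i : Fin (q * K), ∑ j : Fin b, g (T (i, j)) (n₀ + n)|)) := by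
    intro n hn
    rw [Finset.mem_filter] at hn ⊢
    refine ⟨hn.1, ?_⟩
    have hn2 := hn.2
    set x : ℤ := n₀ + n
    -- split the sum over P
    have h1 : ∑ p ∈ P, χ p x = ∑ p ∈ P, g p x + ∑ p ∈ P, (χ p x - g p x) := by
      rw [← Finset.sum_add_distrib]
      apply Finset.sum_congr rfl
      intro p _; ring
    have h2 : |∑ p ∈ P, (χ p x - g p x)| ≤ 8 / ε + P.card / (8 / ε) := by
      refine (Finset.abs_sum_le_sum_abs _ _).trans ?_
      refine (Finset.sum_le_sum (fun p hp => hχ p hp x)).trans ?_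
      exact sum_inv_le (fun p hp => (hprime p hp).two_le) (by positivity)
    set I : Finset ℕ := univ.image T with hI
    have hIP : I ⊆ P := by
      intro p hp
      obtain ⟨y, _, rfl⟩ := Finset.mem_image.1 hp
      exact hTP y
    have hIcard : I.card = q * K * b := by
      rw [hI, Finset.card_image_of_injective _ hT, card_univ, Fintype.card_prod, Fintype.card_fin,
        Fintype.card_fin]
    have h3 : ∑ p ∈ P, g p x = ∑ p ∈ P \ I, g p x + ∑ p ∈ I, g p x :=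
      (Finset.sum_sdiff hIP).symm
    have h4 : ∑ p ∈ I, g p x = ∑ i : Fin (q * K), ∑ j : Fin b, g (T (i, j)) x := by
      rw [hI, Finset.sum_image (fun a _ b _ h => hT h), Fintype.sum_prod_type]
    have h5 : |∑ p ∈ P \ I, g p x| ≤ 4 / 3 * ((q : ℝ) * K) := by
      have hc : (P \ I).card ≤ q * K := by
        rw [Finset.card_sdiff_of_subset hIP, hIcard]; omega
      calc |∑ p ∈ P \ I, g p x| ≤ ∑ p ∈ P \ I, |g p x| := Finset.abs_sum_le_sum_abs _ _
        _ ≤ ∑ _p ∈ P \ I, (4 / 3 : ℝ) :=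
          Finset.sum_le_sum (fun p hp => hgc p (Finset.mem_sdiff.1 hp).1 x)
        _ = (P \ I).card * (4 / 3 : ℝ) := by rw [Finset.sum_const, nsmul_eq_mul]
        _ ≤ ((q * K : ℕ) : ℝ) * (4 / 3 : ℝ) := by
          apply mul_le_mul_of_nonneg_right _ (by norm_num)
          exact_mod_cast hc
        _ = 4 / 3 * ((q : ℝ) * K) := by push_cast; ring
    rw [h1, h3, h4] at hn2
    have h6 : ε * P.card ≤ |∑ i : Fin (q * K), ∑ j : Fin b, g (T (i, j)) x|
        + 4 / 3 * ((q : ℝ) * K) + (8 / ε + P.card / (8 / ε)) := by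
      refine hn2.trans ?_
      refine (abs_add_le _ _).trans ?_
      have := abs_add_le (∑ p ∈ P \ I, g p x) (∑ i : Fin (q * K), ∑ j : Fin b, g (T (i, j)) x)
      linarith
    have h7 : (P.card : ℝ) / (8 / ε) = ε / 8 * P.card := by
      field_simp
    rw [h7] at h6
    have h8 : (((q * K : ℕ) : ℝ) * b) ≤ P.card := by exact_mod_cast hkb
    have h9 : ε / 2 * (((q * K : ℕ) : ℝ) * b) ≤ ε / 2 * P.card :=
      mul_le_mul_of_nonneg_left h8 hδ.le
    linarith
  have h10 := Finset.card_le_card hsub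
  have h11 : (((range Z).filter (fun n : ℕ => ε * P.card ≤ |∑ p ∈ P, χ p (n₀ + n)|)).card : ℝ)
      ≤ _ := le_trans (by exact_mod_cast h10) hmain
  refine h11.trans (le_of_eq ?_)
  congr 1
  rw [pow_mul, pow_mul, ← mul_pow]
  congr 2
  field_simp
  norm_num

end MPaaa0df
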