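import Pool.Agent.W_MP_aaa0df_nt.CharSum
import Pool.Agent.W_MP_aaa0df_nt.PBound
import Pool.Agent.W_MP_aaa0df_nt.Asym

set_option autoImplicit false

namespace MPaaa0df

open Finset Real

section

variable (a b c : ℤ)

/-- quadratic polynomial -/
def ff (n : ℤ) : ℤ := a * n ^ 2 + b * n + c

/-- character values -/
noncomputable def chi (p : ℕ) (n : ℤ) : ℝ := (jacobiSym (ff a b c n) p : ℝ)

/-- centred character values -/
noncomputable def gg (p : ℕ) (n : ℤ) : ℝ := chi a b c p n + (jacobiSym a p : ℝ) / p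

lemma abs_jacobi_le (x : ℤ) (p : ℕ) : |((jacobiSym x p : ℤ) : ℝ)| ≤ 1 := by
  rcases jacobiSym.trichotomy x p with h | h | h <;> rw [h] <;> norm_num

lemma gg_isMZ {p : ℕ} (hp : p.Prime) (hp2 : p ≠ 2) (hD : ¬ ((p : ℤ) ∣ b ^ 2 - 4 * a * c)) :
    IsMZ p (gg a b c p) := by
  have : Fact p.Prime := ⟨hp⟩
  refine ⟨inferInstance, fun x => ((quadraticChar (ZMod p) ((a : ZMod p) * x ^ 2 + b * x + c) : ℤ) : ℝ)
    + ((quadraticChar (ZMod p) (a : ZMod p) : ℤ) : ℝ) / p, ?_, ?_⟩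
  · rw [Finset.sum_add_distrib, Finset.sum_const, card_univ, ZMod.card, nsmul_eq_mul]
    have hD' : (b : ZMod p) ^ 2 - 4 * (a : ZMod p) * (c : ZMod p) ≠ 0 := by
      intro h
      apply hD
      rw [← ZMod.intCast_zmod_eq_zero_iff_dvd]
      · push_cast; exact h
      
    have h1 := sum_quadChar_poly hp2 (a : ZMod p) (b : ZMod p) (c : ZMod p) hD'
    have h2 : ∑ x : ZMod p, ((quadraticChar (ZMod p) ((a : ZMod p) * x ^ 2 + b * x + c) : ℤ) : ℝ)
        = - ((quadraticChar (ZMod p) (a : ZMod p) : ℤ) : ℝ) := by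
      rw [← Int.cast_sum, h1]; push_cast; rfl
    rw [h2]
    have hp0 : (p : ℝ) ≠ 0 := by exact_mod_cast hp.ne_zero
    field_simp
    ring
  · intro n
    unfold gg chi ff
    rw [← jacobiSym.legendreSym.to_jacobiSym, ← jacobiSym.legendreSym.to_jacobiSym]
    unfold legendreSym
    push_cast
    rfl

lemma chi_sub_gg (p : ℕ) (n : ℤ) : |chi a b c p n - gg a b c p n| ≤ 1 / p := by
  unfold gg
  have h1 : chi a b c p n - (chi a b c p n + (jacobiSym a p : ℝ) / p)
      = - ((jacobiSym a p : ℝ) / p) := by ring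
  rw [h1, abs_neg, abs_div, Nat.abs_cast]
  exact div_le_div_of_nonneg_right (abs_jacobi_le _ _) (Nat.cast_nonneg _)

lemma gg_le {p : ℕ} (hp : 3 ≤ p) (n : ℤ) : |gg a b c p n| ≤ 4 / 3 := by
  unfold gg
  have h1 : |(jacobiSym a p : ℝ) / p| ≤ 1 / 3 := by
    rw [abs_div, Nat.abs_cast]
    calc |((jacobiSym a p : ℤ) : ℝ)| / (p : ℝ) ≤ 1 / (p : ℝ) :=
          div_le_div_of_nonneg_right (abs_jacobi_le _ _) (Nat.cast_nonneg _)
      _ ≤ 1 / 3 := by
          apply one_div_le_one_div_of_le (by norm_num)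
          exact_mod_cast hp
  have h2 : |chi a b c p n| ≤ 1 := abs_jacobi_le _ _
  calc |chi a b c p n + (jacobiSym a p : ℝ) / p| ≤ |chi a b c p n| + |(jacobiSym a p : ℝ) / p| :=
        abs_add_le _ _
    _ ≤ 4 / 3 := by linarith only [h1, h2]

end

/-- the main count for fixed `m` -/
lemma E_final {ε C0 ε' α : ℝ} (hε : 0 < ε) (hε1 : ε ≤ 1) (hC0 : 0 < C0) (hε' : 0 < ε')
    (hα0 : 0 < α) (hα1 : α < 1) :
    ∃ m0 : ℕ, ∀ m : ℕ, m0 ≤ m → ∀ X : ℝ, 3 ≤ X → log X ≤ C0 * (m : ℝ) ^ α → ∀ a b c : ℤ,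
      |(a : ℝ)| ≤ X → |(b : ℝ)| ≤ X → |(c : ℝ)| ≤ X → b ^ 2 - 4 * a * c ≠ 0 →
      ∀ (n₀ : ℤ) (Z : ℕ), 1 ≤ Z → (Z : ℝ) ≤ X ^ 2 →
      (((range Z).filter (fun n : ℕ => ε * (PP (b ^ 2 - 4 * a * c) m).card ≤
        |∑ p ∈ PP (b ^ 2 - 4 * a * c) m, chi a b c p (n₀ + n)|)).card : ℝ)
        ≤ 2 * (m : ℝ) ^ (1 - α) * (Z : ℝ) ^ (2 / (3 - α) + ε') := by
  classical
  -- constants
  have h3α : 0 < 3 - α := by linarith only [hα0, hα1]
  set q : ℕ := ⌈16 / (3 * ε)⌉₊ with hq
  have hqr : 16 / (3 * ε) ≤ (q : ℝ) := Nat.le_ceil _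
  have hq1 : 1 ≤ (q : ℝ) := by
    refine le_trans ?_ hqr
    rw [le_div_iff₀ (by (clear * - hε; positivity))]; linarith only [hε1, hα0, hα1]
  have hq0 : 0 < q := by
    have : (0 : ℝ) < q := by linarith only [hα0, hα1, hq1]
    exact_mod_cast this
  set c1 : ℝ := (q : ℝ) * (2 * C0 / (3 - α)) with hc1
  have hc1pos : 0 < c1 := by (clear * - hε hC0 h3α; positivity)
  set A : ℝ := 2 ^ q * (16 / (3 * ε)) ^ 2 with hA
  have hApos : 0 < A := by (clear * - hε; positivity)
  set A2 : ℝ := max 1 (8 * c1) with hA2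
  have hA2one : 1 ≤ A2 := le_max_left _ _
  obtain ⟨m1, h1⟩ := primes_lower
  obtain ⟨m2, h2⟩ := asym1r hα1 (32 / (3 * ε) * (4 / 3 * c1 + 8 / ε))
  obtain ⟨m3, h3⟩ := asym1r hα1 (4 * (5 + 4 * C0))
  obtain ⟨m4, h4⟩ := asym2 1
  obtain ⟨m5, h5⟩ := asym2 (1 / (3 - α) * log (A * A2) / ε')
  refine ⟨max (max (max m1 m2) (max m3 m4)) m5, ?_⟩
  intro m hm X hX hηX a b c ha hb hc hΔ n₀ Z hZ1 hZX
  have hm1 : m1 ≤ m := by
    have := le_max_left m1 m2; have := le_max_left (max m1 m2) (max m3 m4)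
    have := le_max_left (max (max m1 m2) (max m3 m4)) m5; omega
  have hm2 : m2 ≤ m := by
    have := le_max_right m1 m2; have := le_max_left (max m1 m2) (max m3 m4)
    have := le_max_left (max (max m1 m2) (max m3 m4)) m5; omega
  have hm3 : m3 ≤ m := by
    have := le_max_left m3 m4; have := le_max_right (max m1 m2) (max m3 m4)
    have := le_max_left (max (max m1 m2) (max m3 m4)) m5; omega
  have hm4 : m4 ≤ m := by
    have := le_max_right m3 m4; have := le_max_right (max m1 m2) (max m3 m4)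
    have := le_max_left (max (max m1 m2) (max m3 m4)) m5; omega
  have hm5 : m5 ≤ m := by
    have := le_max_right (max (max m1 m2) (max m3 m4)) m5; omega
  replace h1 := h1 m hm1
  replace h2 := h2 m hm2
  replace h3 := h3 m hm3
  replace h4 := h4 m hm4
  replace h5 := h5 m hm5
  clear hm1 hm2 hm3 hm4 hm5 hm m1 m2 m3 m4 m5
  set lm : ℝ := log (m : ℝ) with hlm
  have hlmpos : 0 < lm := by linarith only [hα0, hα1, h4]
  have hmpos : (0 : ℝ) < m := by
    rcases Nat.eq_zero_or_pos m with h | h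
    · rw [h] at hlm; simp at hlm; linarith only [hα0, hα1, h4, hlm]
    · exact_mod_cast h
  have hm1' : (1 : ℝ) ≤ m := by
    have : 1 ≤ m := by
      have : 0 < m := by exact_mod_cast hmpos
      omega
    exact_mod_cast this
  set s : ℝ := (m : ℝ) ^ α with hs
  set s' : ℝ := (m : ℝ) ^ (1 - α) with hs'
  have hs1 : 1 ≤ s := Real.one_le_rpow hm1' hα0.le
  have hs'1 : 1 ≤ s' := Real.one_le_rpow hm1' (by linarith only [hα1])
  have hss : s * s' = m := by
    rw [hs, hs', ← Real.rpow_add hmpos]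
    have : α + (1 - α) = 1 := by ring
    rw [this, Real.rpow_one]
  set Δ : ℤ := b ^ 2 - 4 * a * c with hΔdef
  set P := PP Δ m with hP
  have hlogX1 : 1 ≤ log X := by
    rw [Real.le_log_iff_exp_le (by linarith only [hα0, hα1, hX])]
    have := Real.exp_one_lt_d9; linarith only [hα0, hα1, hX, this]
  -- lower bound for |P|
  have hΔX : |(Δ : ℝ)| ≤ 5 * X ^ 2 := by
    rw [hΔdef]; push_cast
    have hb2 : |(b : ℝ) ^ 2| ≤ X ^ 2 := by
      rw [abs_pow]; exact pow_le_pow_left₀ (abs_nonneg _) hb 2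
    have hac : |4 * (a : ℝ) * c| ≤ 4 * X ^ 2 := by
      rw [abs_mul, abs_mul]
      have : |(4 : ℝ)| = 4 := by norm_num
      rw [this, mul_assoc, sq]
      apply mul_le_mul_of_nonneg_left _ (by norm_num)
      exact mul_le_mul ha hc (abs_nonneg _) (by linarith only [hα0, hα1, hX])
    calc |(b : ℝ) ^ 2 - 4 * a * c| ≤ |(b : ℝ) ^ 2| + |4 * (a : ℝ) * c| := abs_sub _ _
      _ ≤ 5 * X ^ 2 := by linarith only [hb2, hac]
  have hlog5 : log (5 * X ^ 2) ≤ 2 + 2 * log X := by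
    rw [Real.log_mul (by norm_num) (by (clear * - hX; positivity)), Real.log_pow]
    have h5' : log 5 ≤ 2 := by
      rw [Real.log_le_iff_le_exp (by norm_num)]
      have := Real.exp_one_gt_d9
      have h2e : Real.exp 2 = Real.exp 1 * Real.exp 1 := by rw [← Real.exp_add]; norm_num
      rw [h2e]; nlinarith only [hα0, hα1, this]
    push_cast; linarith only [h5']
  have hPcard := PP_card hΔ hΔX m
  have hlogXs : log X ≤ C0 * s := hηX
  have hN : (m : ℝ) / (4 * lm) ≤ P.card := by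
    have hx1 : (m : ℝ) / (2 * lm) ≤ P.card + 1 + 2 * (2 + 2 * (C0 * s)) := by
      have : 2 * log (5 * X ^ 2) ≤ 2 * (2 + 2 * (C0 * s)) := by linarith only [hηX, hlog5]
      linarith only [h1, hηX, hlog5, hPcard]
    have hx2 : 5 + 4 * (C0 * s) ≤ (m : ℝ) / (4 * lm) := by
      rw [le_div_iff₀ (by (clear * - h4; positivity))]
      have hx3 : (5 + 4 * (C0 * s)) ≤ (5 + 4 * C0) * (s + 1) := by
        nlinarith only [hC0, hα0, hα1, hs1]
      calc (5 + 4 * (C0 * s)) * (4 * lm) ≤ ((5 + 4 * C0) * (s + 1)) * (4 * lm) :=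
            mul_le_mul_of_nonneg_right hx3 (by (clear * - h4; positivity))
        _ = 4 * (5 + 4 * C0) * ((s + 1) * lm) := by ring
        _ ≤ m := h3
    have hx5 : (m : ℝ) / (2 * lm) = m / (4 * lm) + m / (4 * lm) := by
      field_simp; ring
    linarith only [h1, hηX, hlog5, hPcard, hx2, hx5]
  -- K
  set lZ : ℝ := log (Z : ℝ) with hlZ
  have hZr : (1 : ℝ) ≤ Z := by exact_mod_cast hZ1
  have hZpos : (0 : ℝ) < Z := by linarith only [hα0, hα1, hZr]
  have hlZ0 : 0 ≤ lZ := Real.log_nonneg hZr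
  have hlZX : lZ ≤ 2 * log X := by
    rw [hlZ, ← Real.log_rpow (by linarith only [hα0, hα1, hX])]
    apply Real.log_le_log hZpos
    rw [Real.rpow_two]; exact hZX
  have hZexp : Real.exp lZ = Z := Real.exp_log hZpos
  have hmexp : Real.exp lm = m := Real.exp_log hmpos
  have hsexp : Real.exp (lm * (1 - α)) = s' := by
    rw [hs', Real.rpow_def_of_pos hmpos]
  have hZpow : ∀ t : ℝ, (Z : ℝ) ^ t = Real.exp (lZ * t) := fun t => Real.rpow_def_of_pos hZpos t
  set w : ℝ := 1 / (3 - α) with hw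
  have hwpos : 0 < w := by (clear * - h3α; positivity)
  have hw2 : 2 / (3 - α) = 2 * w := by rw [hw]; ring
  have hw1 : (1 - α) * w + 2 * w = 1 := by rw [hw]; field_simp; ring
  set K : ℕ := ⌊w * lZ / lm⌋₊ with hK
  have hquot0 : 0 ≤ w * lZ / lm := by (clear * - h3α h4; positivity)
  have hKle : (K : ℝ) ≤ w * lZ / lm := Nat.floor_le hquot0
  have hKlt : w * lZ / lm < K + 1 := Nat.lt_floor_add_one _
  have hKle' : (K : ℝ) * lm ≤ w * lZ := by
    rw [le_div_iff₀ hlmpos] at hKle; exact hKle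
  have hKlt' : w * lZ < (K + 1) * lm := by
    rw [div_lt_iff₀ hlmpos] at hKlt; exact hKlt
  -- the quantity  Z / s^K ≤ s Z^{4/5}
  have hZs : (Z : ℝ) / s' ^ K ≤ s' * (Z : ℝ) ^ (2 * w) := by
    rw [div_le_iff₀ (by (clear * - hmpos; positivity)), hZpow]
    have e1 : s' * Real.exp (lZ * (2 * w)) * s' ^ K
        = Real.exp ((K + 1) * (lm * (1 - α)) + lZ * (2 * w)) := by
      rw [Real.exp_add, add_mul, one_mul, Real.exp_add, hsexp, Real.exp_nat_mul, hsexp]
      ring
    rw [e1, ← hZexp]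
    apply Real.exp_le_exp.2
    have e2 : w * lZ * (1 - α) ≤ (K + 1) * lm * (1 - α) :=
      mul_le_mul_of_nonneg_right hKlt'.le (by linarith only [hα1])
    have e3 : lZ = w * lZ * (1 - α) + lZ * (2 * w) := by
      linear_combination (-lZ) * hw1
    linarith only [e2, e3]
  have hmK : (m : ℝ) ^ (2 * K) ≤ (Z : ℝ) ^ (2 * w) := by
    rw [hZpow, ← hmexp, ← Real.exp_nat_mul]
    apply Real.exp_le_exp.2
    push_cast; linarith only [hKle']
  have hZ45 : 0 < (Z : ℝ) ^ (2 * w) := Real.rpow_pos_of_pos hZpos _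
  have hcount_le : (((range Z).filter (fun n : ℕ => ε * P.card ≤
        |∑ p ∈ P, chi a b c p (n₀ + n)|)).card : ℝ) ≤ Z := by
    have := Finset.card_filter_le (range Z) (fun n : ℕ => ε * P.card ≤
        |∑ p ∈ P, chi a b c p (n₀ + n)|)
    rw [Finset.card_range] at this
    exact_mod_cast this
  have hAA : (A * A2) ^ K ≤ (Z : ℝ) ^ ε' := by
    have hpos : 0 < A * A2 := by (clear * - hε; positivity)
    rw [hZpow, ← Real.exp_log (pow_pos hpos K), Real.log_pow]
    apply Real.exp_le_exp.2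
    rw [div_le_iff₀ hε'] at h5
    by_cases hneg : log (A * A2) ≤ 0
    · have : (K : ℝ) * log (A * A2) ≤ 0 :=
        mul_nonpos_of_nonneg_of_nonpos (Nat.cast_nonneg _) hneg
      have : 0 ≤ lZ * ε' := by (clear * - hε'; positivity)
      linarith
    · push Not at hneg
      calc (K : ℝ) * log (A * A2) ≤ (w * lZ / lm) * log (A * A2) :=
            mul_le_mul_of_nonneg_right hKle hneg.le
        _ = (w * log (A * A2)) * (lZ / lm) := by ring
        _ ≤ (lm * ε') * (lZ / lm) := mul_le_mul_of_nonneg_right h5 (by (clear * - h4; positivity))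
        _ = lZ * ε' := by field_simp
  have hsplit : (Z : ℝ) ^ (2 / (3 - α) + ε') = (Z : ℝ) ^ (2 * w) * (Z : ℝ) ^ ε' := by
    rw [hw2]; exact Real.rpow_add hZpos _ _
  by_cases hK0 : K = 0
  · rw [hK0] at hZs
    rw [pow_zero, div_one] at hZs
    have hZe : 1 ≤ (Z : ℝ) ^ ε' := Real.one_le_rpow hZr hε'.le
    rw [hsplit]
    have hx : s' * (Z : ℝ) ^ (2 * w) * 1 ≤ s' * (Z : ℝ) ^ (2 * w) * (Z : ℝ) ^ ε' :=
      mul_le_mul_of_nonneg_left hZe (by (clear * - hmpos hZ1; positivity))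
    have hy : 0 ≤ s' * (Z : ℝ) ^ (2 * w) * (Z : ℝ) ^ ε' := by (clear * - hmpos hZ1; positivity)
    calc _ ≤ (Z : ℝ) := hcount_le
      _ ≤ s' * (Z : ℝ) ^ (2 * w) := hZs
      _ ≤ 2 * s' * ((Z : ℝ) ^ (2 * w) * (Z : ℝ) ^ ε') := by linarith only [hα0, hα1, hZr, hZs, hx]
  · have hKpos : 0 < K := Nat.pos_of_ne_zero hK0
    have hKr : (1 : ℝ) ≤ K := by exact_mod_cast hKpos
    have hk0 : 0 < q * K := Nat.mul_pos hq0 hKpos
    have hkle : (q : ℝ) * K ≤ c1 * s / lm := by
      rw [le_div_iff₀ hlmpos]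
      calc (q : ℝ) * K * lm = q * (K * lm) := by ring
        _ ≤ q * (w * lZ) := mul_le_mul_of_nonneg_left hKle' (by (clear * - hε; positivity))
        _ ≤ q * (w * (2 * (C0 * s))) := by
            apply mul_le_mul_of_nonneg_left _ (by (clear * - hε; positivity))
            apply mul_le_mul_of_nonneg_left _ hwpos.le
            linarith only [hηX, hlZX]
        _ = c1 * s := by rw [hc1, hw]; field_simp
    have hbig : 4 / 3 * ((q : ℝ) * K) + 8 / ε ≤ 3 * ε / 8 * P.card := by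
      have hx1 : 4 / 3 * ((q : ℝ) * K) + 8 / ε ≤ 4 / 3 * (c1 * s / lm) + 8 / ε := by linarith only [hkle]
      have hx2 : 4 / 3 * (c1 * s / lm) + 8 / ε ≤ 3 * ε / 8 * (m / (4 * lm)) := by
        have hx3 : 4 / 3 * (c1 * s / lm) + 8 / ε = (4 / 3 * c1 * s + 8 / ε * lm) / lm := by
          field_simp
        have hx4 : 3 * ε / 8 * (m / (4 * lm)) = (3 * ε / 32 * m) / lm := by
          field_simp; ring
        rw [hx3, hx4]
        apply div_le_div_of_nonneg_right _ hlmpos.le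
        have hx5 : 4 / 3 * c1 * s + 8 / ε * lm ≤ (4 / 3 * c1 + 8 / ε) * ((s + 1) * lm) := by
          have hy1 : s ≤ (s + 1) * lm := by nlinarith only [h4, hw1, hα0, hwpos, hα1, hs1]
          have hy2 : lm ≤ (s + 1) * lm := by nlinarith only [hs1, hw1, hy1, hα0, hwpos, hα1, h4]
          have hy3 : 0 < 8 / ε := by (clear * - hε; positivity)
          have hy4 : 4 / 3 * c1 * s ≤ 4 / 3 * c1 * ((s + 1) * lm) :=
            mul_le_mul_of_nonneg_left hy1 (by (clear * - hε hC0 h3α; positivity))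
          have hy5 : 8 / ε * lm ≤ 8 / ε * ((s + 1) * lm) :=
            mul_le_mul_of_nonneg_left hy2 hy3.le
          linarith only [hy4, hy5]
        have hx6 : (4 / 3 * c1 + 8 / ε) * ((s + 1) * lm)
            = 3 * ε / 32 * (32 / (3 * ε) * (4 / 3 * c1 + 8 / ε) * ((s + 1) * lm)) := by
          field_simp
        rw [hx6] at hx5
        refine hx5.trans ?_
        exact mul_le_mul_of_nonneg_left h2 (by (clear * - hε; positivity))
      have hx7 : 3 * ε / 8 * (m / (4 * lm)) ≤ 3 * ε / 8 * P.card :=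
        mul_le_mul_of_nonneg_left hN (by (clear * - hε; positivity))
      linarith only [hkle, hx2, hx7]
    have h2k : 2 * ((q : ℝ) * K) ≤ P.card := by
      have hy : 4 / 3 * ((q : ℝ) * K) ≤ 3 * ε / 8 * P.card := by
        have : 0 < 8 / ε := by (clear * - hε; positivity)
        linarith only [hbig, this]
      have hz : 3 * ε / 8 * P.card ≤ 3 * 1 / 8 * P.card := by
        apply mul_le_mul_of_nonneg_right _ (Nat.cast_nonneg _)
        linarith only [hε1]
      linarith only [hy, hz]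
    set bb : ℕ := P.card / (q * K) with hbb
    have h2k' : 2 * (q * K) ≤ P.card := by exact_mod_cast h2k
    have hbb0 : 0 < bb := by
      rw [hbb]; exact Nat.div_pos (by omega) hk0
    have hkb : q * K * bb ≤ P.card := Nat.mul_div_le _ _
    have hkb2 : P.card ≤ q * K * bb + q * K := by
      have := Nat.div_add_mod P.card (q * K)
      have h' := Nat.mod_lt P.card hk0
      rw [hbb]; omega
    have hPmem : ∀ p ∈ P, p.Prime ∧ p < m ∧ p ≠ 2 ∧ ¬ ((p : ℤ) ∣ Δ) := by
      intro p hp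
      rw [hP, PP, Finset.mem_filter, Nat.mem_primesBelow] at hp
      exact ⟨hp.1.2, hp.1.1, hp.2.1, hp.2.2⟩
    have hmain := P_count (P := P) (m := m) (chi a b c) (gg a b c) (fun p hp => (hPmem p hp).1)
      (fun p hp => (hPmem p hp).2.1.le)
      (fun p hp => gg_isMZ a b c (hPmem p hp).1 (hPmem p hp).2.2.1 (hPmem p hp).2.2.2)
      (fun p hp n => gg_le a b c (by
        have h1 := (hPmem p hp).1.two_le
        have h2 := (hPmem p hp).2.2.1
        omega) n)
      (fun p hp n => chi_sub_gg a b c p n) hε hqr hbb0 hkb hkb2 hbig n₀ Z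
    refine hmain.trans ?_
    -- lower bound for bb
    have hbbr : s' / A2 ≤ bb := by
      have hx1 : (P.card : ℝ) ≤ q * K * bb + q * K := by exact_mod_cast hkb2
      have hkpos : (0 : ℝ) < (q : ℝ) * K := by (clear * - hε hK0; positivity)
      have hbb1 : (1 : ℝ) ≤ bb := by exact_mod_cast hbb0
      have hx2 : (P.card : ℝ) ≤ 2 * ((q : ℝ) * K) * bb := by
        have : (q : ℝ) * K * 1 ≤ q * K * bb := mul_le_mul_of_nonneg_left hbb1 hkpos.le
        linarith only [h2k, hx1]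
      have hx3 : (m : ℝ) / (4 * lm) ≤ 2 * (c1 * s / lm) * bb := by
        refine hN.trans (hx2.trans ?_)
        apply mul_le_mul_of_nonneg_right _ (Nat.cast_nonneg _)
        linarith only [hkle]
      have hx4 : s' ≤ 8 * c1 * bb := by
        rw [div_le_iff₀ (by (clear * - h4; positivity))] at hx3
        have hx5 : 2 * (c1 * s / lm) * bb * (4 * lm) = s * (8 * c1 * bb) := by
          field_simp; ring
        rw [hx5, ← hss] at hx3
        exact le_of_mul_le_mul_left hx3 (by linarith only [hα0, hα1, hs1])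
      rw [div_le_iff₀ (by linarith only [hα0, hα1, hA2one])]
      have hx6 : 8 * c1 * bb ≤ A2 * bb :=
        mul_le_mul_of_nonneg_right (le_max_right _ _) (Nat.cast_nonneg _)
      linarith only [hx4, hx6]
    have hbbK : (Z : ℝ) / (bb : ℝ) ^ K ≤ A2 ^ K * (s' * (Z : ℝ) ^ (2 * w)) := by
      have hx1 : (s' / A2) ^ K ≤ (bb : ℝ) ^ K := pow_le_pow_left₀ (by (clear * - hmpos; positivity)) hbbr K
      calc (Z : ℝ) / (bb : ℝ) ^ K ≤ Z / (s' / A2) ^ K := by
            apply div_le_div_of_nonneg_left hZpos.le (by (clear * - hmpos; positivity)) hx1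
        _ = A2 ^ K * (Z / s' ^ K) := by
            rw [div_pow]; field_simp
        _ ≤ _ := mul_le_mul_of_nonneg_left hZs (by (clear * -; positivity))
    have hA2K : 1 ≤ A2 ^ K := one_le_pow₀ hA2one
    have hmK2 : (m : ℝ) ^ (2 * K) ≤ A2 ^ K * (s' * (Z : ℝ) ^ (2 * w)) := by
      refine hmK.trans ?_
      have hx1 : 1 * ((Z : ℝ) ^ (2 * w)) ≤ s' * (Z : ℝ) ^ (2 * w) :=
        mul_le_mul_of_nonneg_right hs'1 hZ45.le
      have hx2 : 1 * (s' * (Z : ℝ) ^ (2 * w)) ≤ A2 ^ K * (s' * (Z : ℝ) ^ (2 * w)) :=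
        mul_le_mul_of_nonneg_right hA2K (by (clear * - hmpos hZ1; positivity))
      linarith only [hx1, hx2]
    calc A ^ K * (Z / (bb : ℝ) ^ K + (m : ℝ) ^ (2 * K))
        ≤ A ^ K * (A2 ^ K * (s' * (Z : ℝ) ^ (2 * w)) + A2 ^ K * (s' * (Z : ℝ) ^ (2 * w))) := by
          apply mul_le_mul_of_nonneg_left _ (by (clear * - hε; positivity))
          linarith only [hbbK, hmK2]
      _ = 2 * s' * (Z : ℝ) ^ (2 * w) * (A * A2) ^ K := by rw [mul_pow]; ring
      _ ≤ 2 * s' * (Z : ℝ) ^ (2 * w) * (Z : ℝ) ^ ε' :=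
          mul_le_mul_of_nonneg_left hAA (by (clear * - hmpos hZ1; positivity))
      _ = 2 * s' * (Z : ℝ) ^ (2 / (3 - α) + ε') := by rw [hsplit]; ring

end MPaaa0df
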