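import Pool.Agent.W_MP_aaa0df_nt.Main

set_option autoImplicit false

namespace MPaaa0df

open Finset Real

/-- estimates for the threshold -/
lemma threshold_bounds {d : ℤ} {Y t : ℝ} (ht : 3 ≤ t) (h1 : t ≤ log |(d : ℝ)|)
    (h2 : log |(d : ℝ)| ≤ Y) : t ^ 2 ≤ threshold d ∧ threshold d ≤ 4 * Y ^ 3 := by
  unfold threshold
  set L := log |(d : ℝ)| with hL
  have hL3 : 3 ≤ L := ht.trans h1
  have hLpos : 0 < L := by linarith
  have hlog1 : 1 ≤ log L := by
    rw [Real.le_log_iff_exp_le hLpos]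
    have := Real.exp_one_lt_d9; linarith
  constructor
  · have e1 : t ^ 2 ≤ L ^ 2 := pow_le_pow_left₀ (by linarith) h1 2
    have e2 : 1 ≤ log L ^ 2 := one_le_pow₀ hlog1
    have e3 : L ^ 2 * 1 ≤ L ^ 2 * log L ^ 2 := mul_le_mul_of_nonneg_left e2 (by positivity)
    linarith
  · have e1 : log L ≤ 2 * √L := by
      have e2 : log L = 2 * log (√L) := by
        rw [Real.log_sqrt hLpos.le]; ring
      rw [e2]
      have := Real.log_le_sub_one_of_pos (Real.sqrt_pos.2 hLpos)
      linarith
    have e3 : log L ^ 2 ≤ 4 * L := by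
      calc log L ^ 2 ≤ (2 * √L) ^ 2 := pow_le_pow_left₀ (by linarith) e1 2
        _ = 4 * (√L ^ 2) := by ring
        _ = 4 * L := by rw [Real.sq_sqrt hLpos.le]
    calc L ^ 2 * log L ^ 2 ≤ L ^ 2 * (4 * L) := mul_le_mul_of_nonneg_left e3 (by positivity)
      _ = 4 * L ^ 3 := by ring
      _ ≤ 4 * Y ^ 3 := by
        have := pow_le_pow_left₀ hLpos.le h2 3
        linarith

/-- the final theorem, in terms of `ff` -/
theorem main_final (β A ε δ η : ℝ) (hβ : 1 < β) (hβ2 : β ≤ 2) (hA : 4 ≤ A) (hε : 0 < ε)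
    (hδ : 0 < δ) (hη : 0 < η) (B : ℕ) :
    ∃ C : ℝ, ∀ X : ℝ, 3 ≤ X → ∀ a b c : ℤ,
      |(a : ℝ)| ≤ X → |(b : ℝ)| ≤ X → |(c : ℝ)| ≤ X → b ^ 2 - 4 * a * c ≠ 0 →
      ∀ (n₀ : ℤ) (Z : ℕ),
        (Set.ncard {n : ℤ | n₀ ≤ n ∧ n < n₀ + Z ∧
          ((ff a b c n % 4 = 0 ∨ ff a b c n % 4 = 1) ∧
          X ^ η ≤ |((ff a b c n : ℤ) : ℝ)| ∧ |((ff a b c n : ℤ) : ℝ)| ≤ X ∧
          ¬ Typical β A δ B (ff a b c n))} : ℝ)
        ≤ C * (Z : ℝ) ^ (2 * β / (3 * β - 1) + ε) * log X ^ (2 * A) := by
  classical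
  set ε1 : ℝ := min δ (1 / 4) with hε1
  have hε1pos : 0 < ε1 := by rw [hε1]; positivity
  have hε1δ : ε1 ≤ δ := min_le_left _ _
  have hε1q : ε1 ≤ 1 / 4 := min_le_right _ _
  obtain ⟨C, hC0, h1⟩ := main_uniform β A ε ε1 η hβ (by linarith) hε hε1pos hη
  obtain ⟨m2, h2⟩ := primes_lower
  obtain ⟨m4, h4⟩ := asym1 (8 * B)
  obtain ⟨m5, h5⟩ := asym2 1
  set L1 : ℝ := max (max 3 ((m2 : ℝ) + m4 + m5) / η) 4 with hL1
  refine ⟨C + 6 * Real.exp L1, ?_⟩
  intro X hX a b c ha hb hc hΔ n₀ Z
  have hlogX1 : 1 ≤ log X := log_ge_one hX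
  have hlog0 : 0 < log X := by linarith
  have hex0 : 0 ≤ 2 * β / (3 * β - 1) := by
    apply div_nonneg <;> linarith
  set Bad : ℤ → Prop := fun n => ((ff a b c n % 4 = 0 ∨ ff a b c n % 4 = 1) ∧
          X ^ η ≤ |((ff a b c n : ℤ) : ℝ)| ∧ |((ff a b c n : ℤ) : ℝ)| ≤ X ∧
          ¬ Typical β A δ B (ff a b c n)) with hBad
  have hexp0 : 0 < Real.exp L1 := Real.exp_pos _
  rcases Nat.eq_zero_or_pos Z with hZ0 | hZ0
  · refine le_trans (Nat.cast_le.2 (ncard_le n₀ Z Bad)) ?_
    have : ((range Z).filter (fun n : ℕ => Bad (n₀ + n))).card = 0 := by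
      rw [hZ0]; simp
    rw [this]
    have h1 : 0 ≤ (Z : ℝ) ^ (2 * β / (3 * β - 1) + ε) := Real.rpow_nonneg (Nat.cast_nonneg _) _
    push_cast
    positivity
  have hZr : (1 : ℝ) ≤ Z := by exact_mod_cast hZ0
  have hZp : 1 ≤ (Z : ℝ) ^ (2 * β / (3 * β - 1) + ε) := Real.one_le_rpow hZr (by linarith)
  have hY5 : 1 ≤ log X ^ (2 * A) := Real.one_le_rpow hlogX1 (by linarith)
  by_cases hsmall : log X < L1
  · refine le_trans (Nat.cast_le.2 (ncard_le n₀ Z Bad)) ?_
    have hfew : (((range Z).filter (fun n : ℕ => Bad (n₀ + n))).card : ℝ) ≤ 6 * X := by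
      apply few_values hΔ hX n₀
      intro n hn
      rw [Finset.mem_filter] at hn
      exact hn.2.2.2.1
    have h6 : X ≤ Real.exp L1 := by
      rw [← Real.log_le_iff_le_exp (by linarith)]; exact hsmall.le
    calc (((range Z).filter (fun n : ℕ => Bad (n₀ + n))).card : ℝ) ≤ 6 * X := hfew
      _ ≤ (C + 6 * Real.exp L1) * 1 * 1 := by linarith
      _ ≤ (C + 6 * Real.exp L1) * (Z : ℝ) ^ (2 * β / (3 * β - 1) + ε) * log X ^ (2 * A) := by
        apply mul_le_mul _ hY5 (by norm_num) (by positivity)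
        exact mul_le_mul_of_nonneg_left hZp (by positivity)
  push Not at hsmall
  set Y : ℝ := log X with hY
  have hc1 : max 3 ((m2 : ℝ) + m4 + m5) / η ≤ Y := (le_max_left _ _).trans hsmall
  have hc3 : 4 ≤ Y := (le_max_right _ _).trans hsmall
  rw [div_le_iff₀ hη] at hc1
  have hηY3 : 3 ≤ η * Y := by
    have := (le_max_left 3 ((m2 : ℝ) + m4 + m5)).trans hc1
    linarith
  have hηYm : (m2 : ℝ) + m4 + m5 ≤ η * Y := by
    have := (le_max_right 3 ((m2 : ℝ) + m4 + m5)).trans hc1
    linarith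
  have hmain := h1 X hX a b c ha hb hc hΔ n₀ Z
  refine le_trans ?_ (hmain.trans ?_)
  · apply Nat.cast_le.2
    apply Set.ncard_le_ncard
    · intro n hn
      obtain ⟨hn1, hn2, hfd, hXη, hfX, hbad⟩ := hn
      set d := ff a b c n with hd
      have hXη0 : (0 : ℝ) < X ^ η := Real.rpow_pos_of_pos (by linarith) _
      have hd0 : d ≠ 0 := by
        intro h
        rw [h] at hXη
        simp only [Int.cast_zero, abs_zero] at hXη
        linarith
      have hL1 : η * Y ≤ log |(d : ℝ)| := by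
        rw [hY, ← Real.log_rpow (by linarith)]
        exact Real.log_le_log hXη0 hXη
      have hL2 : log |(d : ℝ)| ≤ Y := Real.log_le_log (hXη0.trans_le hXη) hfX
      have hLpos : 0 < log |(d : ℝ)| := by linarith
      refine ⟨hn1, hn2, hd0, hfd, hfX, ?_⟩
      by_contra hnone
      push Not at hnone
      apply hbad
      have hgood : ∀ y : ℝ, log |(d : ℝ)| ^ β ≤ y → y ≤ log |(d : ℝ)| ^ A →
          |(splitCount d y : ℝ) - primeCount y / 2| ≤ ε1 * primeCount y := by
        intro y hy1 hy2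
        apply hnone y
        · exact le_trans (Real.rpow_le_rpow (by linarith) hL1 (by linarith)) hy1
        · exact hy2.trans (Real.rpow_le_rpow hLpos.le hL2 (by linarith))
      constructor
      · -- the quantity of the problem
        obtain ⟨hb1, hb2⟩ := threshold_bounds hηY3 hL1 hL2
        set y := threshold d with hy
        have hcon := hnone y (by
            calc (η * Y) ^ β ≤ (η * Y) ^ (2 : ℝ) :=
                  Real.rpow_le_rpow_of_exponent_le (by linarith) hβ2
              _ = (η * Y) ^ 2 := Real.rpow_two _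
              _ ≤ y := hb1) (by
            calc y ≤ 4 * Y ^ 3 := hb2
              _ ≤ Y * Y ^ 3 := mul_le_mul_of_nonneg_right hc3 (by positivity)
              _ = Y ^ (4 : ℝ) := by
                have : (4 : ℝ) = ((4 : ℕ) : ℝ) := by norm_num
                rw [this, Real.rpow_natCast]; ring
              _ ≤ Y ^ A := Real.rpow_le_rpow_of_exponent_le hlogX1 hA)
        have hNall0 : (0 : ℝ) ≤ primeCount y := Nat.cast_nonneg _
        -- lower bound for the number of primes
        set m : ℕ := ⌈y⌉₊ with hm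
        have hym : y ≤ m := Nat.le_ceil _
        have hYm : η * Y ≤ m := by
          nlinarith
        have hm2 : m2 ≤ m := by
          have : (m2 : ℝ) ≤ m := by
            have := Nat.cast_nonneg (α := ℝ) m4; have := Nat.cast_nonneg (α := ℝ) m5; linarith
          exact_mod_cast this
        have hm4 : m4 ≤ m := by
          have : (m4 : ℝ) ≤ m := by
            have := Nat.cast_nonneg (α := ℝ) m2; have := Nat.cast_nonneg (α := ℝ) m5; linarith
          exact_mod_cast this
        have hm5 : m5 ≤ m := by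
          have : (m5 : ℝ) ≤ m := by
            have := Nat.cast_nonneg (α := ℝ) m2; have := Nat.cast_nonneg (α := ℝ) m4; linarith
          exact_mod_cast this
        have h2' := h2 m hm2
        have h4' := h4 m hm4
        have h5' := h5 m hm5
        have hπ : (primeCount y : ℝ) = m.primesBelow.card := by rw [primeCount_eq]
        rw [← hπ] at h2'
        have hlm : 0 < log (m : ℝ) := by linarith
        have hs0 : 0 ≤ √(m : ℝ) := Real.sqrt_nonneg _
        have hmle : (m : ℝ) ≤ primeCount y * (2 * log m) := by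
          rw [div_le_iff₀ (by positivity)] at h2'; exact h2'
        have hB : 4 * (B : ℝ) ≤ primeCount y := by
          have e1 : 8 * (B : ℝ) * ((√(m : ℝ) + 1) * log m) ≤ primeCount y * (2 * log m) :=
            h4'.trans hmle
          have e2 : 4 * (B : ℝ) * (2 * log m) ≤ primeCount y * (2 * log m) := by
            refine le_trans ?_ e1
            have e3 : 0 ≤ 8 * (B : ℝ) * (√(m : ℝ) * log m) := by positivity
            nlinarith
          exact le_of_mul_le_mul_right e2 (by positivity)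
        have e1 := (abs_le.1 hcon).1
        have e2 : ε1 * primeCount y ≤ 1 / 4 * primeCount y :=
          mul_le_mul_of_nonneg_right hε1q hNall0
        have e3 : (B : ℝ) ≤ splitCount d y := by linarith
        unfold N
        rw [← hy]
        exact_mod_cast e3
      · intro y hy1 hy2
        exact (hgood y hy1 hy2).trans (mul_le_mul_of_nonneg_right hε1δ (Nat.cast_nonneg _))
    · apply Set.Finite.subset (Set.finite_Ico n₀ (n₀ + Z))
      intro n hn
      exact ⟨hn.1, hn.2.1⟩
  · apply mul_le_mul_of_nonneg_right _ (by positivity)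
    apply mul_le_mul_of_nonneg_right _ (by positivity)
    linarith

end MPaaa0df
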