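import Pool.Agent.W_MP_aaa0df_nt.Rel

set_option autoImplicit false

namespace MPaaa0df

open Finset Real

/-- few integers `n` with `|f n| ≤ X` -/
lemma few_values {a b c : ℤ} (hΔ : b ^ 2 - 4 * a * c ≠ 0) {X : ℝ} (hX : 3 ≤ X) (n₀ : ℤ)
    (T : Finset ℕ) (hT : ∀ n ∈ T, |((ff a b c (n₀ + n) : ℤ) : ℝ)| ≤ X) :
    (T.card : ℝ) ≤ 6 * X := by
  classical
  set v : ℕ → ℤ := fun n => ff a b c (n₀ + n) with hv
  have h1 : T.card ≤ 2 * (T.image v).card := by
    apply Finset.card_le_mul_card_image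
    intro y _
    by_contra hcon
    push Not at hcon
    rw [Finset.two_lt_card] at hcon
    obtain ⟨x1, h1, x2, h2, x3, h3, h12, h13, h23⟩ := hcon
    rw [Finset.mem_filter] at h1 h2 h3
    have e1 := h1.2
    have e2 := h2.2
    have e3 := h3.2
    rw [hv] at e1 e2 e3
    simp only [ff] at e1 e2 e3
    have k12 : ((x1 : ℤ) - x2) * (a * ((n₀ + x1) + (n₀ + x2)) + b) = 0 := by
      linear_combination e1 - e2
    have k13 : ((x1 : ℤ) - x3) * (a * ((n₀ + x1) + (n₀ + x3)) + b) = 0 := by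
      linear_combination e1 - e3
    have d12 : ((x1 : ℤ) - x2) ≠ 0 := by omega
    have d13 : ((x1 : ℤ) - x3) ≠ 0 := by omega
    have d23 : ((x2 : ℤ) - x3) ≠ 0 := by omega
    have j12 := (mul_eq_zero.1 k12).resolve_left d12
    have j13 := (mul_eq_zero.1 k13).resolve_left d13
    have ja : a * ((x2 : ℤ) - x3) = 0 := by linear_combination j12 - j13
    have ha := (mul_eq_zero.1 ja).resolve_right d23
    rw [ha] at j12
    have hb : b = 0 := by linear_combination j12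
    apply hΔ
    rw [ha, hb]; ring
  have h2 : (T.image v) ⊆ Finset.Icc (-⌊X⌋) ⌊X⌋ := by
    intro y hy
    obtain ⟨n, hn, rfl⟩ := Finset.mem_image.1 hy
    have h := hT n hn
    rw [abs_le] at h
    rw [Finset.mem_Icc]
    constructor
    · have : -(ff a b c (n₀ + n)) ≤ ⌊X⌋ := by
        rw [Int.le_floor]; push_cast; linarith
      rw [hv]; simp only; linarith
    · rw [Int.le_floor]; exact h.2
  have h3 := Finset.card_le_card h2
  rw [Int.card_Icc] at h3
  have hfl : 0 ≤ ⌊X⌋ := Int.floor_nonneg.2 (by linarith)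
  have h4 : (((⌊X⌋ + 1 - -⌊X⌋).toNat : ℕ) : ℝ) ≤ 2 * X + 1 := by
    have e : (((⌊X⌋ + 1 - -⌊X⌋).toNat : ℕ) : ℤ) = ⌊X⌋ + 1 - -⌊X⌋ :=
      Int.toNat_of_nonneg (by linarith)
    have e' : (((⌊X⌋ + 1 - -⌊X⌋).toNat : ℕ) : ℝ) = ((⌊X⌋ + 1 - -⌊X⌋ : ℤ) : ℝ) := by
      rw [← e]; norm_cast
    rw [e']
    push_cast
    have := Int.floor_le X
    linarith
  have h5 : (T.card : ℝ) ≤ 2 * ((T.image v).card : ℝ) := by exact_mod_cast h1
  have h6 : ((T.image v).card : ℝ) ≤ (((⌊X⌋ + 1 - -⌊X⌋).toNat : ℕ) : ℝ) := by exact_mod_cast h3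
  linarith

lemma ncard_le (n₀ : ℤ) (Z : ℕ) (Q : ℤ → Prop) [DecidablePred fun n : ℕ => Q (n₀ + n)] :
    Set.ncard {n : ℤ | n₀ ≤ n ∧ n < n₀ + Z ∧ Q n} ≤
      ((range Z).filter (fun n : ℕ => Q (n₀ + n))).card := by
  set T := (range Z).filter (fun n : ℕ => Q (n₀ + n)) with hT
  have hsub : {n : ℤ | n₀ ≤ n ∧ n < n₀ + Z ∧ Q n} ⊆
      ((T.image (fun n : ℕ => n₀ + (n : ℤ)) : Finset ℤ) : Set ℤ) := by
    intro n hn
    obtain ⟨hn1, hn2, hn3⟩ := hn
    rw [Finset.mem_coe, Finset.mem_image]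
    refine ⟨(n - n₀).toNat, ?_, by omega⟩
    rw [hT, Finset.mem_filter, Finset.mem_range]
    have e : n₀ + ((n - n₀).toNat : ℤ) = n := by omega
    refine ⟨by omega, ?_⟩
    rw [e]
    exact hn3
  calc _ ≤ Set.ncard (((T.image (fun n : ℕ => n₀ + (n : ℤ)) : Finset ℤ) : Set ℤ)) :=
        Set.ncard_le_ncard hsub (Finset.finite_toSet _)
    _ = (T.image (fun n : ℕ => n₀ + (n : ℤ))).card := Set.ncard_coe_finset _
    _ ≤ T.card := Finset.card_image_le

lemma log_ge_one {X : ℝ} (hX : 3 ≤ X) : 1 ≤ log X := by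
  rw [Real.le_log_iff_exp_le (by linarith)]
  have := Real.exp_one_lt_d9; linarith

/-- the uniform theorem -/
theorem main_uniform (β A ε δ η : ℝ) (hβ : 1 < β) (hA : 1 ≤ A) (hε : 0 < ε) (hδ : 0 < δ)
    (hη : 0 < η) :
    ∃ C : ℝ, 0 ≤ C ∧ ∀ X : ℝ, 3 ≤ X → ∀ a b c : ℤ,
      |(a : ℝ)| ≤ X → |(b : ℝ)| ≤ X → |(c : ℝ)| ≤ X → b ^ 2 - 4 * a * c ≠ 0 →
      ∀ (n₀ : ℤ) (Z : ℕ),
        (Set.ncard {n : ℤ | n₀ ≤ n ∧ n < n₀ + Z ∧
          (ff a b c n ≠ 0 ∧ (ff a b c n % 4 = 0 ∨ ff a b c n % 4 = 1) ∧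
          |((ff a b c n : ℤ) : ℝ)| ≤ X ∧
          ∃ y : ℝ, (η * log X) ^ β ≤ y ∧ y ≤ log X ^ A ∧
            δ * primeCount y < |(splitCount (ff a b c n) y : ℝ) - primeCount y / 2|)} : ℝ)
        ≤ C * (Z : ℝ) ^ (2 * β / (3 * β - 1) + ε) * log X ^ (2 * A) := by
  classical
  set α : ℝ := 1 / β with hα
  have hβ0 : 0 < β := by linarith
  have hα0 : 0 < α := by positivity
  have hα1 : α < 1 := by rw [hα, div_lt_one hβ0]; exact hβ
  have hexpo : 2 * β / (3 * β - 1) = 2 / (3 - α) := by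
    rw [hα]
    have : 3 * β - 1 ≠ 0 := by linarith
    field_simp
  rw [hexpo]
  have h23 : 1 / 2 ≤ 2 / (3 - α) := by
    rw [div_le_div_iff₀ (by norm_num) (by linarith)]; linarith
  set ε1 : ℝ := min δ 1 with hε1
  have hε1pos : 0 < ε1 := by rw [hε1]; positivity
  have hε1δ : ε1 ≤ δ := min_le_left _ _
  have hε1q : ε1 ≤ 1 := min_le_right _ _
  have hηinv : 0 < 1 / η := by positivity
  obtain ⟨m1, h1⟩ := E_final (ε := ε1) (C0 := 1 / η) (ε' := ε) (α := α) hε1pos hε1q hηinv hε hα0 hα1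
  obtain ⟨m2, h2⟩ := primes_lower
  obtain ⟨m3, h3⟩ := asym1r hα1 (2 / ε1 * (5 + 6 / η))
  obtain ⟨m5, h5⟩ := asym2 1
  set m0 : ℕ := max (max m1 m2) (max m3 m5) with hm0
  have hm1 : m1 ≤ m0 := (le_max_left m1 m2).trans (le_max_left _ _)
  have hm2 : m2 ≤ m0 := (le_max_right m1 m2).trans (le_max_left _ _)
  have hm3 : m3 ≤ m0 := (le_max_left m3 m5).trans (le_max_right _ _)
  have hm5 : m5 ≤ m0 := (le_max_right m3 m5).trans (le_max_right _ _)
  clear_value m0
  set L0 : ℝ := max 1 (m0 : ℝ) / η with hL0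
  refine ⟨12 + 6 * Real.exp L0, by positivity, ?_⟩
  intro X hX a b c ha hb hc hΔ n₀ Z
  have hlogX1 : 1 ≤ log X := log_ge_one hX
  set Bad : ℤ → Prop := fun n => (ff a b c n ≠ 0 ∧ (ff a b c n % 4 = 0 ∨ ff a b c n % 4 = 1) ∧
          |((ff a b c n : ℤ) : ℝ)| ≤ X ∧
          ∃ y : ℝ, (η * log X) ^ β ≤ y ∧ y ≤ log X ^ A ∧
            δ * primeCount y < |(splitCount (ff a b c n) y : ℝ) - primeCount y / 2|) with hBad
  set T : Finset ℕ := (range Z).filter (fun n : ℕ => Bad (n₀ + n)) with hT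
  refine le_trans (Nat.cast_le.2 (ncard_le n₀ Z Bad)) (?_ : (T.card : ℝ) ≤ _)
  have hfew : (T.card : ℝ) ≤ 6 * X := by
    apply few_values hΔ hX n₀ T
    intro n hn
    rw [hT, Finset.mem_filter] at hn
    exact hn.2.2.2.1
  have hexp0 : 0 < Real.exp L0 := Real.exp_pos _
  rcases Nat.eq_zero_or_pos Z with hZ0 | hZ0
  · have : T.card = 0 := by
      rw [hT, hZ0]; simp
    rw [this]
    have h1 : 0 ≤ (Z : ℝ) ^ (2 / (3 - α) + ε) := Real.rpow_nonneg (Nat.cast_nonneg _) _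
    push_cast
    positivity
  have hZr : (1 : ℝ) ≤ Z := by exact_mod_cast hZ0
  have hZp : 1 ≤ (Z : ℝ) ^ (2 / (3 - α) + ε) := Real.one_le_rpow hZr (by linarith)
  have hY5 : 1 ≤ log X ^ (2 * A) := Real.one_le_rpow hlogX1 (by linarith)
  by_cases hsmall : log X < L0
  · have h6 : X ≤ Real.exp L0 := by
      rw [← Real.log_le_iff_le_exp (by linarith)]; exact hsmall.le
    calc (T.card : ℝ) ≤ 6 * X := hfew
      _ ≤ (12 + 6 * Real.exp L0) * 1 * 1 := by linarith
      _ ≤ (12 + 6 * Real.exp L0) * (Z : ℝ) ^ (2 / (3 - α) + ε) * log X ^ (2 * A) := by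
        apply mul_le_mul _ hY5 (by norm_num) (by positivity)
        exact mul_le_mul_of_nonneg_left hZp (by positivity)
  push Not at hsmall
  by_cases hlarge : X ^ 2 < (Z : ℝ)
  · have h6 : X ≤ (Z : ℝ) ^ (2 / (3 - α) + ε) := by
      calc X = (X ^ 2) ^ (1 / 2 : ℝ) := by
            rw [← Real.sqrt_eq_rpow, Real.sqrt_sq (by linarith)]
        _ ≤ (Z : ℝ) ^ (1 / 2 : ℝ) := Real.rpow_le_rpow (by positivity) hlarge.le (by norm_num)
        _ ≤ (Z : ℝ) ^ (2 / (3 - α) + ε) :=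
          Real.rpow_le_rpow_of_exponent_le hZr (by linarith)
    calc (T.card : ℝ) ≤ 6 * X := hfew
      _ ≤ 6 * (Z : ℝ) ^ (2 / (3 - α) + ε) := by linarith
      _ ≤ (12 + 6 * Real.exp L0) * (Z : ℝ) ^ (2 / (3 - α) + ε) * 1 := by
        rw [mul_one]
        apply mul_le_mul_of_nonneg_right _ (by positivity)
        linarith
      _ ≤ (12 + 6 * Real.exp L0) * (Z : ℝ) ^ (2 / (3 - α) + ε) * log X ^ (2 * A) := by
        apply mul_le_mul_of_nonneg_left hY5 (by positivity)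
  push Not at hlarge
  -- the main case
  set Y : ℝ := log X with hY
  have hY0 : 0 < Y := by linarith
  have hYA : 1 ≤ Y ^ A := Real.one_le_rpow hlogX1 (by linarith)
  have hηY : max 1 (m0 : ℝ) ≤ η * Y := by
    rw [hL0, div_le_iff₀ hη] at hsmall
    linarith
  have hηY1 : 1 ≤ η * Y := (le_max_left _ _).trans hηY
  have hηYm : (m0 : ℝ) ≤ η * Y := (le_max_right _ _).trans hηY
  set M : ℕ := ⌊Y ^ A + 1⌋₊ with hM
  set Em : ℕ → Finset ℕ := fun m => (range Z).filter (fun n : ℕ => ε1 * (PP (b ^ 2 - 4 * a * c) m).card ≤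
        |∑ p ∈ PP (b ^ 2 - 4 * a * c) m, chi a b c p (n₀ + n)|) with hEm
  set S : Finset ℕ := (range (M + 1)).filter (fun m : ℕ => m0 ≤ m ∧ Y ≤ 1 / η * (m : ℝ) ^ α) with hS
  have hΔX : |(((b ^ 2 - 4 * a * c : ℤ)) : ℝ)| ≤ 5 * X ^ 2 := by
    push_cast
    have hb2 : |(b : ℝ) ^ 2| ≤ X ^ 2 := by
      rw [abs_pow]; exact pow_le_pow_left₀ (abs_nonneg _) hb 2
    have hac : |4 * (a : ℝ) * c| ≤ 4 * X ^ 2 := by
      rw [abs_mul, abs_mul]
      have : |(4 : ℝ)| = 4 := by norm_num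
      rw [this, mul_assoc, sq]
      apply mul_le_mul_of_nonneg_left _ (by norm_num)
      exact mul_le_mul ha hc (abs_nonneg _) (by linarith)
    calc |(b : ℝ) ^ 2 - 4 * a * c| ≤ |(b : ℝ) ^ 2| + |4 * (a : ℝ) * c| := abs_sub _ _
      _ ≤ 5 * X ^ 2 := by linarith
  have hlog5 : log (5 * X ^ 2) ≤ 2 + 2 * Y := by
    rw [Real.log_mul (by norm_num) (by positivity), Real.log_pow]
    have h5' : log 5 ≤ 2 := by
      rw [Real.log_le_iff_le_exp (by norm_num)]
      have := Real.exp_one_gt_d9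
      have h2e : Real.exp 2 = Real.exp 1 * Real.exp 1 := by rw [← Real.exp_add]; norm_num
      rw [h2e]; nlinarith
    push_cast; linarith
  have hcover : T ⊆ S.biUnion Em := by
    intro n hn
    rw [hT, Finset.mem_filter] at hn
    obtain ⟨hnZ, hf0, hfd, hfX, y, hy1, hy2, hbad⟩ := hn
    set d : ℤ := ff a b c (n₀ + n) with hd
    set m : ℕ := ⌈y⌉₊ with hm
    have hmb : y ≤ m := Nat.le_ceil _
    have hy0 : 0 ≤ y := le_trans (by positivity) hy1
    have hYβ : η * Y ≤ (η * Y) ^ β := by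
      calc η * Y = (η * Y) ^ (1 : ℝ) := (Real.rpow_one _).symm
        _ ≤ (η * Y) ^ β := Real.rpow_le_rpow_of_exponent_le hηY1 hβ.le
    have hYm' : η * Y ≤ (m : ℝ) ^ α := by
      calc η * Y = ((η * Y) ^ β) ^ α := by
            rw [← Real.rpow_mul (by positivity), hα, mul_one_div, div_self hβ0.ne', Real.rpow_one]
        _ ≤ (m : ℝ) ^ α := Real.rpow_le_rpow (by positivity) (hy1.trans hmb) hα0.le
    have hYm : Y ≤ 1 / η * (m : ℝ) ^ α := by
      calc Y = 1 / η * (η * Y) := by field_simp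
        _ ≤ 1 / η * (m : ℝ) ^ α := mul_le_mul_of_nonneg_left hYm' hηinv.le
    have hm0m : m0 ≤ m := by
      have h7 : (m0 : ℝ) ≤ m := hηYm.trans (hYβ.trans (hy1.trans hmb))
      exact_mod_cast h7
    have hmM : m ≤ M := by
      rw [hM]
      apply Nat.le_floor
      have h8 := Nat.ceil_lt_add_one hy0
      linarith
    rw [Finset.mem_biUnion]
    refine ⟨m, ?_, ?_⟩
    · rw [hS, Finset.mem_filter, Finset.mem_range]
      exact ⟨by omega, hm0m, hYm⟩
    · rw [hEm]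
      simp only
      rw [Finset.mem_filter]
      refine ⟨hnZ, ?_⟩
      by_contra hcon
      push Not at hcon
      have hrel := rel_main hΔ hΔX hf0 hfd hfX y m hm
      rw [← hd] at hrel
      have hπ : (primeCount y : ℝ) = m.primesBelow.card := by rw [primeCount_eq]
      have hPπ : ((PP (b ^ 2 - 4 * a * c) m).card : ℝ) ≤ primeCount y := by
        rw [hπ]
        exact_mod_cast Finset.card_le_card (Finset.filter_subset _ _)
      have h2' := h2 m (hm2.trans hm0m)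
      have h3' := h3 m (hm3.trans hm0m)
      have h5' := h5 m (hm5.trans hm0m)
      rw [← hπ] at h2'
      have hlm : 0 < log (m : ℝ) := by linarith
      have hs0 : 0 ≤ (m : ℝ) ^ α := Real.rpow_nonneg (Nat.cast_nonneg _) _
      have hmle : (m : ℝ) ≤ primeCount y * (2 * log m) := by
        rw [div_le_iff₀ (by positivity)] at h2'; exact h2'
      have hA' : 5 + 6 * Y ≤ ε1 * primeCount y := by
        have e1 : 5 + 6 * Y ≤ (5 + 6 / η) * ((m : ℝ) ^ α + 1) := by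
          have e2 : 6 * Y ≤ 6 / η * (m : ℝ) ^ α := by
            calc 6 * Y ≤ 6 * (1 / η * (m : ℝ) ^ α) := by linarith
              _ = 6 / η * (m : ℝ) ^ α := by ring
          have e3 : 0 < 6 / η := by positivity
          nlinarith
        have e4 : (2 / ε1 * (5 + 6 / η) * (((m : ℝ) ^ α + 1) * log m))
            ≤ primeCount y * (2 * log m) := h3'.trans hmle
        have e5 : (5 + 6 / η) * ((m : ℝ) ^ α + 1) ≤ ε1 * primeCount y := by
          have e6 : ((5 + 6 / η) * ((m : ℝ) ^ α + 1)) * (2 * log m)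
              ≤ (ε1 * primeCount y) * (2 * log m) := by
            calc ((5 + 6 / η) * ((m : ℝ) ^ α + 1)) * (2 * log m)
                = ε1 * (2 / ε1 * (5 + 6 / η) * (((m : ℝ) ^ α + 1) * log m)) := by field_simp
              _ ≤ ε1 * (primeCount y * (2 * log m)) := mul_le_mul_of_nonneg_left e4 hε1pos.le
              _ = (ε1 * primeCount y) * (2 * log m) := by ring
          exact le_of_mul_le_mul_right e6 (by positivity)
        linarith
      have hcon' : |∑ p ∈ PP (b ^ 2 - 4 * a * c) m, chi a b c p (n₀ + n)| ≤ ε1 * primeCount y := by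
        have := mul_le_mul_of_nonneg_left hPπ hε1pos.le
        linarith
      have hC : |2 * (splitCount d y : ℝ) - primeCount y| ≤ 2 * (ε1 * primeCount y) := by linarith
      have hD : |(splitCount d y : ℝ) - primeCount y / 2| ≤ ε1 * primeCount y := by
        have e1 : (splitCount d y : ℝ) - primeCount y / 2
            = (2 * (splitCount d y : ℝ) - primeCount y) / 2 := by ring
        rw [e1, abs_div, div_le_iff₀ (by norm_num)]
        have : |(2 : ℝ)| = 2 := by norm_num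
        rw [this]; linarith
      have hNall0 : (0 : ℝ) ≤ primeCount y := Nat.cast_nonneg _
      have hE := hD.trans (mul_le_mul_of_nonneg_right hε1δ hNall0)
      linarith
  have hcardT : (T.card : ℝ) ≤ ∑ m ∈ S, ((Em m).card : ℝ) := by
    have e1 := (Finset.card_le_card hcover).trans Finset.card_biUnion_le
    exact_mod_cast e1
  have hMle : (M : ℝ) ≤ Y ^ A + 1 := Nat.floor_le (by positivity)
  have hM2 : (M : ℝ) ≤ 2 * Y ^ A := by linarith
  have hEbound : ∀ m ∈ S, ((Em m).card : ℝ) ≤ 2 * (2 * Y ^ A) * (Z : ℝ) ^ (2 / (3 - α) + ε) := by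
    intro m hm
    rw [hS, Finset.mem_filter, Finset.mem_range] at hm
    have e1 := h1 m (hm1.trans hm.2.1) X hX hm.2.2 a b c ha hb hc hΔ n₀ Z hZ0 hlarge
    have e2 : (m : ℝ) ^ (1 - α) ≤ 2 * Y ^ A := by
      have hmM : (m : ℝ) ≤ M := by
        have : m ≤ M := by omega
        exact_mod_cast this
      rcases Nat.eq_zero_or_pos m with h0 | h0
      · rw [h0, Nat.cast_zero, Real.zero_rpow (by linarith)]; positivity
      · have hm1r : (1 : ℝ) ≤ m := by exact_mod_cast h0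
        calc (m : ℝ) ^ (1 - α) ≤ (m : ℝ) ^ (1 : ℝ) :=
              Real.rpow_le_rpow_of_exponent_le hm1r (by linarith)
          _ = m := Real.rpow_one _
          _ ≤ 2 * Y ^ A := hmM.trans hM2
    refine e1.trans ?_
    apply mul_le_mul_of_nonneg_right _ (by positivity)
    linarith
  have hScard : (S.card : ℝ) ≤ M + 1 := by
    have e1 := Finset.card_filter_le (range (M + 1)) (fun m : ℕ => m0 ≤ m ∧ Y ≤ 1 / η * (m : ℝ) ^ α)
    rw [Finset.card_range] at e1
    exact_mod_cast e1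
  have hM3 : (M : ℝ) + 1 ≤ 3 * Y ^ A := by linarith
  have hYY : Y ^ A * Y ^ A = Y ^ (2 * A) := by
    rw [← Real.rpow_add hY0]; congr 1; ring
  calc (T.card : ℝ) ≤ ∑ m ∈ S, ((Em m).card : ℝ) := hcardT
    _ ≤ ∑ _m ∈ S, (2 * (2 * Y ^ A) * (Z : ℝ) ^ (2 / (3 - α) + ε)) := Finset.sum_le_sum hEbound
    _ = S.card * (2 * (2 * Y ^ A) * (Z : ℝ) ^ (2 / (3 - α) + ε)) := by
        rw [Finset.sum_const, nsmul_eq_mul]
    _ ≤ (3 * Y ^ A) * (2 * (2 * Y ^ A) * (Z : ℝ) ^ (2 / (3 - α) + ε)) := by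
        apply mul_le_mul_of_nonneg_right (hScard.trans hM3) (by positivity)
    _ = 12 * (Z : ℝ) ^ (2 / (3 - α) + ε) * Y ^ (2 * A) := by rw [← hYY]; ring
    _ ≤ (12 + 6 * Real.exp L0) * (Z : ℝ) ^ (2 / (3 - α) + ε) * Y ^ (2 * A) := by
        apply mul_le_mul_of_nonneg_right _ (by positivity)
        apply mul_le_mul_of_nonneg_right _ (by positivity)
        linarith

end MPaaa0df
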