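import Pool.Agent.W_MP_aaa0df_nt.Periodic

set_option autoImplicit false

namespace MPaaa0df

open Finset

section

variable {κ : Type*} [Fintype κ] [DecidableEq κ] {b : ℕ}

lemma prod_sq_sum (x : κ → Fin b → ℝ) :
    ∏ i, (∑ j, x i j) ^ 2 = ∑ φ : κ → Fin b × Fin b, ∏ i, (x i (φ i).1 * x i (φ i).2) := by
  have h1 : ∀ i, (∑ j, x i j) ^ 2 = ∑ q : Fin b × Fin b, x i q.1 * x i q.2 := by
    intro i
    rw [sq, Finset.sum_mul_sum, Fintype.sum_prod_type]
  simp_rw [h1]
  rw [Finset.prod_univ_sum (fun _ => univ) (fun i (q : Fin b × Fin b) => x i q.1 * x i q.2)]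
  rw [Fintype.piFinset_univ]

lemma sum_ind : ∑ φ : κ → Fin b × Fin b, ∏ i, (if (φ i).1 = (φ i).2 then (1 : ℝ) else 0)
    = (b : ℝ) ^ (Fintype.card κ) := by
  have h := Finset.prod_univ_sum (fun _ : κ => (univ : Finset (Fin b × Fin b)))
    (fun _ (q : Fin b × Fin b) => if q.1 = q.2 then (1 : ℝ) else 0)
  rw [Fintype.piFinset_univ] at h
  rw [← h]
  have h2 : ∑ q : Fin b × Fin b, (if q.1 = q.2 then (1 : ℝ) else 0) = b := by
    rw [Fintype.sum_prod_type]
    simp
  rw [h2, Finset.prod_const, Finset.card_univ]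

variable (m : ℕ) (T : κ × Fin b → ℕ) (g : ℕ → ℤ → ℝ) (c : ℝ)

lemma phi_bound (hT : Function.Injective T) (hprime : ∀ x, (T x).Prime) (hlt : ∀ x, T x ≤ m)
    (hg : ∀ x, IsMZ (T x) (g (T x))) (hc : 0 ≤ c)
    (hgc : ∀ x n, |g (T x) n| ≤ c) (n₀ : ℤ) (Z : ℕ) (φ : κ → Fin b × Fin b) :
    ∑ n ∈ range Z, ∏ i, (g (T (i, (φ i).1)) (n₀ + n) * g (T (i, (φ i).2)) (n₀ + n)) ≤
      c ^ (2 * Fintype.card κ) * (Z * (∏ i, (if (φ i).1 = (φ i).2 then (1 : ℝ) else 0))
        + (m : ℝ) ^ (2 * Fintype.card κ)) := by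
  have hb : ∀ n : ℤ, |∏ i, (g (T (i, (φ i).1)) n * g (T (i, (φ i).2)) n)|
      ≤ c ^ (2 * Fintype.card κ) := by
    intro n
    rw [Finset.abs_prod]
    calc ∏ i, |g (T (i, (φ i).1)) n * g (T (i, (φ i).2)) n| ≤ ∏ _i : κ, c ^ 2 := by
          apply Finset.prod_le_prod (fun i _ => abs_nonneg _)
          intro i _
          rw [abs_mul, sq]
          exact mul_le_mul (hgc _ _) (hgc _ _) (abs_nonneg _) hc
      _ = c ^ (2 * Fintype.card κ) := by
          rw [Finset.prod_const, Finset.card_univ, ← pow_mul]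
  have hcK : 0 ≤ c ^ (2 * Fintype.card κ) := pow_nonneg hc _
  by_cases hd : ∀ i, (φ i).1 = (φ i).2
  · have h1 : ∏ i, (if (φ i).1 = (φ i).2 then (1 : ℝ) else 0) = 1 := by
      apply Finset.prod_eq_one
      intro i _
      rw [if_pos (hd i)]
    rw [h1]
    calc ∑ n ∈ range Z, ∏ i, (g (T (i, (φ i).1)) (n₀ + n) * g (T (i, (φ i).2)) (n₀ + n))
        ≤ ∑ n ∈ range Z, c ^ (2 * Fintype.card κ) :=
          Finset.sum_le_sum (fun n _ => (le_abs_self _).trans (hb _))
      _ = c ^ (2 * Fintype.card κ) * (Z * 1) := by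
          rw [Finset.sum_const, card_range, nsmul_eq_mul]; ring
      _ ≤ _ := by
          apply mul_le_mul_of_nonneg_left _ hcK
          have : (0 : ℝ) ≤ (m : ℝ) ^ (2 * Fintype.card κ) := by positivity
          linarith
  · push Not at hd
    obtain ⟨i₀, hi₀⟩ := hd
    set p := T (i₀, (φ i₀).1) with hp
    set Q : ℕ := T (i₀, (φ i₀).2) * ∏ i ∈ univ.erase i₀, (T (i, (φ i).1) * T (i, (φ i).2))
      with hQ
    set h : ℤ → ℝ := fun n => g (T (i₀, (φ i₀).2)) n *
      ∏ i ∈ univ.erase i₀, (g (T (i, (φ i).1)) n * g (T (i, (φ i).2)) n) with hh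
    have hprod : ∀ n : ℤ, ∏ i, (g (T (i, (φ i).1)) n * g (T (i, (φ i).2)) n) = g p n * h n := by
      intro n
      rw [← Finset.mul_prod_erase univ _ (Finset.mem_univ i₀), hh, hp]
      ring
    have hQ0 : 0 < Q := by
      rw [hQ]
      apply Nat.mul_pos (hprime _).pos
      apply Finset.prod_pos
      intro i _
      exact Nat.mul_pos (hprime _).pos (hprime _).pos
    have hcop : Nat.Coprime p Q := by
      have hc1 : ∀ x, x ≠ (i₀, (φ i₀).1) → Nat.Coprime p (T x) := by
        intro x hx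
        rw [hp]
        exact (Nat.coprime_primes (hprime _) (hprime _)).2 (fun h => hx (hT h).symm)
      rw [hQ]
      apply Nat.Coprime.mul_right
      · apply hc1
        intro h
        exact hi₀ (Prod.ext_iff.1 h).2.symm
      · apply Nat.Coprime.prod_right
        intro i hi
        have hne : i ≠ i₀ := Finset.ne_of_mem_erase hi
        apply Nat.Coprime.mul_right <;>
        · apply hc1
          intro h
          exact hne (Prod.ext_iff.1 h).1
    have hper : ∀ n, h (n + Q) = h n := by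
      intro n
      rw [hh]
      have h1 : T (i₀, (φ i₀).2) ∣ Q := by rw [hQ]; exact Nat.dvd_mul_right _ _
      simp only
      rw [(hg _).periodic h1]
      congr 1
      apply Finset.prod_congr rfl
      intro i hi
      have h2 : T (i, (φ i).1) * T (i, (φ i).2) ∣ Q := by
        rw [hQ]
        apply Dvd.dvd.mul_left
        exact Finset.dvd_prod_of_mem (fun i => T (i, (φ i).1) * T (i, (φ i).2)) hi
      rw [(hg _).periodic ((Nat.dvd_mul_right _ _).trans h2),
        (hg _).periodic ((Nat.dvd_mul_left _ _).trans h2)]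
    have hM : ∀ n, |g p n * h n| ≤ c ^ (2 * Fintype.card κ) := by
      intro n
      rw [← hprod]; exact hb n
    have hmain := abs_sum_le (hg (i₀, (φ i₀).1)) hQ0 hcop hper _ hM Z n₀
    have hsize : p * Q ≤ m ^ (2 * Fintype.card κ) := by
      have : p * Q = ∏ i, (T (i, (φ i).1) * T (i, (φ i).2)) := by
        rw [← Finset.mul_prod_erase univ _ (Finset.mem_univ i₀), hQ, hp]
        ring
      rw [this]
      calc ∏ i, (T (i, (φ i).1) * T (i, (φ i).2)) ≤ ∏ _i : κ, m ^ 2 := by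
            apply Finset.prod_le_prod' 
            intro i _
            rw [sq]
            exact Nat.mul_le_mul (hlt _) (hlt _)
        _ = m ^ (2 * Fintype.card κ) := by
            rw [Finset.prod_const, Finset.card_univ, ← pow_mul]
    calc ∑ n ∈ range Z, ∏ i, (g (T (i, (φ i).1)) (n₀ + n) * g (T (i, (φ i).2)) (n₀ + n))
        = ∑ n ∈ range Z, g p (n₀ + n) * h (n₀ + n) :=
          Finset.sum_congr rfl (fun n _ => hprod _)
      _ ≤ c ^ (2 * Fintype.card κ) * (p * Q : ℕ) := (le_abs_self _).trans hmain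
      _ ≤ c ^ (2 * Fintype.card κ) * ((m : ℝ) ^ (2 * Fintype.card κ)) := by
          apply mul_le_mul_of_nonneg_left _ hcK
          exact_mod_cast hsize
      _ ≤ _ := by
          apply mul_le_mul_of_nonneg_left _ hcK
          have : (0 : ℝ) ≤ Z * (∏ i, (if (φ i).1 = (φ i).2 then (1 : ℝ) else 0)) := by
            apply mul_nonneg (Nat.cast_nonneg _)
            apply Finset.prod_nonneg
            intro i _
            split_ifs <;> norm_num
          linarith

/-- the moment inequality -/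
lemma moment (hT : Function.Injective T) (hprime : ∀ x, (T x).Prime) (hlt : ∀ x, T x ≤ m)
    (hg : ∀ x, IsMZ (T x) (g (T x))) (hc : 0 ≤ c)
    (hgc : ∀ x n, |g (T x) n| ≤ c) (n₀ : ℤ) (Z : ℕ) :
    ∑ n ∈ range Z, ∏ i : κ, (∑ j : Fin b, g (T (i, j)) (n₀ + n)) ^ 2 ≤
      c ^ (2 * Fintype.card κ) * (Z * (b : ℝ) ^ (Fintype.card κ)
        + (b : ℝ) ^ (2 * Fintype.card κ) * (m : ℝ) ^ (2 * Fintype.card κ)) := by
  have h1 : ∀ n ∈ range Z, ∏ i : κ, (∑ j : Fin b, g (T (i, j)) (n₀ + n)) ^ 2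
      = ∑ φ : κ → Fin b × Fin b,
        ∏ i, (g (T (i, (φ i).1)) (n₀ + n) * g (T (i, (φ i).2)) (n₀ + n)) :=
    fun n _ => prod_sq_sum (fun i j => g (T (i, j)) (n₀ + n))
  rw [Finset.sum_congr rfl h1, Finset.sum_comm]
  calc ∑ φ : κ → Fin b × Fin b, ∑ n ∈ range Z,
        ∏ i, (g (T (i, (φ i).1)) (n₀ + n) * g (T (i, (φ i).2)) (n₀ + n))
      ≤ ∑ φ : κ → Fin b × Fin b, c ^ (2 * Fintype.card κ) *
        (Z * (∏ i, (if (φ i).1 = (φ i).2 then (1 : ℝ) else 0))
        + (m : ℝ) ^ (2 * Fintype.card κ)) :=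
        Finset.sum_le_sum (fun φ _ => phi_bound m T g c hT hprime hlt hg hc hgc n₀ Z φ)
    _ = _ := by
        rw [← Finset.mul_sum, Finset.sum_add_distrib, ← Finset.mul_sum, sum_ind,
          Finset.sum_const, Finset.card_univ, nsmul_eq_mul]
        congr 3
        rw [Fintype.card_fun, Fintype.card_prod, Fintype.card_fin]
        push_cast
        rw [← sq, ← pow_mul]

end

end MPaaa0df
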