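import Mathlib

set_option autoImplicit false

namespace MPaaa0df

open Finset

/-- `g` is periodic modulo `p` with mean zero over a period. -/
def IsMZ (p : ℕ) (g : ℤ → ℝ) : Prop :=
  ∃ (_ : NeZero p) (G : ZMod p → ℝ), ∑ x, G x = 0 ∧ ∀ n : ℤ, g n = G n

lemma IsMZ.periodic {p : ℕ} {g : ℤ → ℝ} (h : IsMZ p g) {Q : ℕ} (hQ : p ∣ Q) (n : ℤ) :
    g (n + Q) = g n := by
  obtain ⟨_, G, _, hG⟩ := h
  rw [hG, hG]
  congr 1
  obtain ⟨t, rfl⟩ := hQ
  push_cast; simp

lemma IsMZ.pos {p : ℕ} {g : ℤ → ℝ} (h : IsMZ p g) : 0 < p := by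
  obtain ⟨h1, _⟩ := h
  exact Nat.pos_of_ne_zero h1.out

lemma sum_range_eq_sum_zmod (p : ℕ) [NeZero p] (F : ZMod p → ℝ) :
    ∑ j ∈ range p, F (j : ZMod p) = ∑ x, F x := by
  refine Finset.sum_bij' (fun j _ => (j : ZMod p)) (fun x _ => x.val) ?_ ?_ ?_ ?_ ?_
  · intro j _; exact Finset.mem_univ _
  · intro x _; exact Finset.mem_range.2 (ZMod.val_lt x)
  · intro j hj; exact ZMod.val_cast_of_lt (Finset.mem_range.1 hj)
  · intro x _; exact ZMod.natCast_zmod_val x
  · intro j _; rfl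

/-- an arithmetic progression of length `p` with difference coprime to `p` -/
lemma IsMZ.sum_ap {p : ℕ} {g : ℤ → ℝ} (h : IsMZ p g) {Q : ℕ} (hQ : Nat.Coprime p Q) (m : ℤ) :
    ∑ j ∈ range p, g (m + Q * j) = 0 := by
  obtain ⟨_, G, h0, hG⟩ := h
  have h1 : ∀ j : ℕ, g (m + Q * j) = (fun x : ZMod p => G (m + Q * x)) (j : ZMod p) := by
    intro j
    rw [hG]; push_cast; rfl
  have h2 := sum_range_eq_sum_zmod p (fun x : ZMod p => G ((m : ZMod p) + (Q : ZMod p) * x))
  rw [Finset.sum_congr rfl (fun j _ => h1 j)]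
  refine Eq.trans h2 ?_
  rw [← h0]
  have hu : IsUnit ((Q : ℕ) : ZMod p) := by
    rw [ZMod.isUnit_iff_coprime]; exact hQ.symm
  refine Fintype.sum_bijective (fun x : ZMod p => (m : ZMod p) + Q * x) ?_ _ _ (fun x => rfl)
  have : Function.Bijective (fun x : ZMod p => (Q : ZMod p) * x) := by
    obtain ⟨u, hu⟩ := hu
    rw [← hu]
    exact Units.mulLeft_bijective u
  exact (Equiv.addLeft (m : ZMod p)).bijective.comp this

lemma sum_range_mul (F : ℕ → ℝ) (Q p : ℕ) :
    ∑ n ∈ range (Q * p), F n = ∑ r ∈ range Q, ∑ j ∈ range p, F (r + Q * j) := by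
  rw [Finset.sum_comm]
  induction p with
  | zero => simp
  | succ p ih =>
    rw [Nat.mul_succ, Finset.sum_range_add, ih, Finset.sum_range_succ]
    congr 1
    apply Finset.sum_congr rfl
    intro r _
    rw [add_comm]

lemma sum_full_period {p : ℕ} {g h : ℤ → ℝ} (hg : IsMZ p g) {Q : ℕ} (hQ : Nat.Coprime p Q)
    (hper : ∀ n, h (n + Q) = h n) (m : ℤ) :
    ∑ n ∈ range (Q * p), g (m + n) * h (m + n) = 0 := by
  rw [sum_range_mul (fun n => g (m + n) * h (m + n))]
  apply Finset.sum_eq_zero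
  intro r _
  have hper' : ∀ (j : ℕ) (n : ℤ), h (n + Q * j) = h n := by
    intro j
    induction j with
    | zero => intro n; simp
    | succ j ih =>
      intro n
      have : n + (Q : ℤ) * ((j + 1 : ℕ) : ℤ) = (n + Q * j) + Q := by push_cast; ring
      rw [this, hper, ih]
  have h1 : ∀ j ∈ range p, g (m + ((r + Q * j : ℕ) : ℤ)) * h (m + ((r + Q * j : ℕ) : ℤ))
      = h (m + r) * g ((m + r) + Q * j) := by
    intro j _
    have : m + ((r + Q * j : ℕ) : ℤ) = (m + r) + Q * j := by push_cast; ring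
    rw [this, hper']; ring
  rw [Finset.sum_congr rfl h1, ← Finset.mul_sum, hg.sum_ap hQ, mul_zero]

/-- incomplete sums of `g h`, `g` of period `p` and mean zero, `h` of period `Q`, `(p,Q)=1`. -/
lemma abs_sum_le {p : ℕ} {g h : ℤ → ℝ} (hg : IsMZ p g) {Q : ℕ} (hQ0 : 0 < Q)
    (hQ : Nat.Coprime p Q) (hper : ∀ n, h (n + Q) = h n) (M : ℝ)
    (hM : ∀ n, |g n * h n| ≤ M) (Z : ℕ) : ∀ m : ℤ,
    |∑ n ∈ range Z, g (m + n) * h (m + n)| ≤ M * (p * Q : ℕ) := by
  have hM0 : 0 ≤ M := (abs_nonneg _).trans (hM 0)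
  have hp0 := hg.pos
  induction Z using Nat.strong_induction_on with
  | _ Z ih =>
    intro m
    by_cases hZ : Z ≤ p * Q
    · calc |∑ n ∈ range Z, g (m + n) * h (m + n)|
          ≤ ∑ n ∈ range Z, |g (m + n) * h (m + n)| := Finset.abs_sum_le_sum_abs _ _
        _ ≤ ∑ n ∈ range Z, M := Finset.sum_le_sum (fun n _ => hM _)
        _ = M * (Z : ℕ) := by rw [Finset.sum_const, card_range, nsmul_eq_mul, mul_comm]
        _ ≤ M * (p * Q : ℕ) := by
          apply mul_le_mul_of_nonneg_left _ hM0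
          exact_mod_cast hZ
    · have hZ' : Z = Q * p + (Z - Q * p) := by
        rw [mul_comm] at hZ; omega
      have hlt : Z - Q * p < Z := by
        have : 0 < Q * p := Nat.mul_pos hQ0 hp0
        rw [mul_comm] at hZ; omega
      rw [hZ', Finset.sum_range_add, sum_full_period hg hQ hper, zero_add]
      have := ih _ hlt (m + (Q * p : ℕ))
      refine le_trans (le_of_eq ?_) this
      congr 1
      apply Finset.sum_congr rfl
      intro n _
      push_cast
      rw [add_assoc]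

end MPaaa0df
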