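import Pool.Agent.W_MP_aaa0df_nt.Moment

set_option autoImplicit false

namespace MPaaa0df

open Finset

lemma pigeon {k b K : ℕ} {δ : ℝ} (hδ : 0 < δ) (hb : 0 < b) (x : Fin k → Fin b → ℝ)
    (hx : ∀ i j, |x i j| ≤ 4 / 3) (hK : (K : ℝ) ≤ 3 / 8 * δ * k)
    (hbig : δ * (k * b) ≤ |∑ i, ∑ j, x i j|) :
    ∃ I ∈ powersetCard K (univ : Finset (Fin k)), ∀ i ∈ I, δ * b / 2 ≤ |∑ j, x i j| := by
  set J : Finset (Fin k) := univ.filter (fun i => δ * b / 2 ≤ |∑ j, x i j|) with hJ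
  have hb' : (0 : ℝ) < b := by exact_mod_cast hb
  have h1 : ∀ i, |∑ j, x i j| ≤ 4 / 3 * b := by
    intro i
    calc |∑ j, x i j| ≤ ∑ j, |x i j| := Finset.abs_sum_le_sum_abs _ _
      _ ≤ ∑ _j : Fin b, (4 / 3 : ℝ) := Finset.sum_le_sum (fun j _ => hx i j)
      _ = 4 / 3 * b := by
        rw [Finset.sum_const, card_univ, Fintype.card_fin, nsmul_eq_mul]; ring
  have h2 : ∀ i, |∑ j, x i j| ≤ (if i ∈ J then 4 / 3 * (b : ℝ) else 0) + δ * b / 2 := by
    intro i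
    split_ifs with h
    · have := h1 i
      have : 0 ≤ δ * b / 2 := by positivity
      linarith [h1 i]
    · rw [hJ, Finset.mem_filter, not_and] at h
      have := h (Finset.mem_univ _)
      push Not at this
      linarith
  have h3 : |∑ i, ∑ j, x i j| ≤ (J.card : ℝ) * (4 / 3 * b) + k * (δ * b / 2) := by
    calc |∑ i, ∑ j, x i j| ≤ ∑ i, |∑ j, x i j| := Finset.abs_sum_le_sum_abs _ _
      _ ≤ ∑ i, ((if i ∈ J then 4 / 3 * (b : ℝ) else 0) + δ * b / 2) :=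
        Finset.sum_le_sum (fun i _ => h2 i)
      _ = _ := by
        rw [Finset.sum_add_distrib, Finset.sum_const, card_univ, Fintype.card_fin, nsmul_eq_mul,
          Finset.sum_ite_mem, Finset.univ_inter, Finset.sum_const, nsmul_eq_mul]
  have h4 : (K : ℝ) ≤ J.card := by
    have h5 : δ * k * b / 2 ≤ (J.card : ℝ) * (4 / 3 * b) := by nlinarith
    have h6 : 3 / 8 * δ * k * (4 / 3 * b) ≤ (J.card : ℝ) * (4 / 3 * b) := by linarith
    have h7 := le_of_mul_le_mul_right h6 (by positivity)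
    linarith
  have h5 : K ≤ J.card := by exact_mod_cast h4
  obtain ⟨I, hI, hIK⟩ := Finset.exists_subset_card_eq h5
  refine ⟨I, Finset.mem_powersetCard.2 ⟨Finset.subset_univ _, hIK⟩, ?_⟩
  intro i hi
  have := hI hi
  rw [hJ, Finset.mem_filter] at this
  exact this.2

lemma one_le_sum {k b K : ℕ} {δ : ℝ} (hδ : 0 < δ) (hb : 0 < b) (x : Fin k → Fin b → ℝ)
    (hx : ∀ i j, |x i j| ≤ 4 / 3) (hK : (K : ℝ) ≤ 3 / 8 * δ * k)
    (hbig : δ * (k * b) ≤ |∑ i, ∑ j, x i j|) :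
    (δ * b / 2) ^ (2 * K) ≤
      ∑ I ∈ powersetCard K (univ : Finset (Fin k)), ∏ i ∈ I, (∑ j, x i j) ^ 2 := by
  obtain ⟨I, hI, h⟩ := pigeon hδ hb x hx hK hbig
  have hIK : I.card = K := (Finset.mem_powersetCard.1 hI).2
  have h0 : 0 ≤ δ * b / 2 := by positivity
  calc (δ * b / 2) ^ (2 * K) = ∏ _i ∈ I, (δ * b / 2) ^ 2 := by
        rw [Finset.prod_const, hIK, ← pow_mul]
    _ ≤ ∏ i ∈ I, (∑ j, x i j) ^ 2 := by
        apply Finset.prod_le_prod (fun i _ => by positivity)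
        intro i hi
        rw [← sq_abs (∑ j, x i j)]
        exact pow_le_pow_left₀ h0 (h i hi) 2
    _ ≤ _ := by
        apply Finset.single_le_sum (f := fun I : Finset (Fin k) => ∏ i ∈ I, (∑ j, x i j) ^ 2)
          (fun I _ => ?_) hI
        exact Finset.prod_nonneg (fun i _ => sq_nonneg _)

lemma count_bound {k b K m : ℕ} (T : Fin k × Fin b → ℕ) (g : ℕ → ℤ → ℝ)
    (hT : Function.Injective T) (hprime : ∀ x, (T x).Prime) (hlt : ∀ x, T x ≤ m)
    (hg : ∀ x, IsMZ (T x) (g (T x)))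
    (hgc : ∀ x n, |g (T x) n| ≤ 4 / 3) (n₀ : ℤ) (Z : ℕ)
    {δ : ℝ} (hδ : 0 < δ) (hb : 0 < b) (hK : (K : ℝ) ≤ 3 / 8 * δ * k) :
    (((range Z).filter (fun n : ℕ => δ * (k * b) ≤
      |∑ i : Fin k, ∑ j : Fin b, g (T (i, j)) (n₀ + n)|)).card : ℝ)
      ≤ 2 ^ k * (8 / (3 * δ)) ^ (2 * K) * (Z / (b : ℝ) ^ K + (m : ℝ) ^ (2 * K)) := by
  set E := (range Z).filter (fun n : ℕ => δ * (k * b) ≤
      |∑ i : Fin k, ∑ j : Fin b, g (T (i, j)) (n₀ + n)|) with hE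
  have hb' : (0 : ℝ) < b := by exact_mod_cast hb
  have h1 : (E.card : ℝ) * (δ * b / 2) ^ (2 * K) ≤
      ∑ n ∈ range Z, ∑ I ∈ powersetCard K (univ : Finset (Fin k)),
        ∏ i ∈ I, (∑ j, g (T (i, j)) (n₀ + n)) ^ 2 := by
    calc (E.card : ℝ) * (δ * b / 2) ^ (2 * K) = ∑ _n ∈ E, (δ * b / 2) ^ (2 * K) := by
          rw [Finset.sum_const, nsmul_eq_mul]
      _ ≤ ∑ n ∈ E, ∑ I ∈ powersetCard K (univ : Finset (Fin k)),
        ∏ i ∈ I, (∑ j, g (T (i, j)) (n₀ + n)) ^ 2 := by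
          apply Finset.sum_le_sum
          intro n hn
          exact one_le_sum hδ hb (fun i j => g (T (i, j)) (n₀ + n)) (fun i j => hgc _ _) hK
            (Finset.mem_filter.1 hn).2
      _ ≤ _ := by
          apply Finset.sum_le_sum_of_subset_of_nonneg (Finset.filter_subset _ _)
          intro n _ _
          apply Finset.sum_nonneg
          intro I _
          exact Finset.prod_nonneg (fun i _ => sq_nonneg _)
  rw [Finset.sum_comm] at h1
  have h2 : ∀ I ∈ powersetCard K (univ : Finset (Fin k)),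
      ∑ n ∈ range Z, ∏ i ∈ I, (∑ j, g (T (i, j)) (n₀ + n)) ^ 2 ≤
      (4 / 3 : ℝ) ^ (2 * K) * (Z * (b : ℝ) ^ K + (b : ℝ) ^ (2 * K) * (m : ℝ) ^ (2 * K)) := by
    intro I hI
    have hIK : I.card = K := (Finset.mem_powersetCard.1 hI).2
    have h3 := moment (κ := ↥I) (b := b) m (fun x => T (x.1.1, x.2)) g (4 / 3)
      (by
        intro x y hxy
        have := hT hxy
        rw [Prod.mk.injEq] at this
        exact Prod.ext (Subtype.ext this.1) this.2)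
      (fun x => hprime _) (fun x => hlt _) (fun x => hg _) (by norm_num) (fun x n => hgc _ n)
      n₀ Z
    rw [Fintype.card_coe, hIK] at h3
    refine le_trans (le_of_eq ?_) h3
    apply Finset.sum_congr rfl
    intro n _
    exact (Finset.prod_coe_sort I (fun i => (∑ j, g (T (i, j)) (n₀ + n)) ^ 2)).symm
  have h4 := h1.trans (Finset.sum_le_sum h2)
  rw [Finset.sum_const, Finset.card_powersetCard, Finset.card_univ, Fintype.card_fin,
    nsmul_eq_mul] at h4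
  have h5 : ((k.choose K : ℕ) : ℝ) ≤ 2 ^ k := by exact_mod_cast Nat.choose_le_two_pow k K
  have hpos : (0 : ℝ) < (δ * b / 2) ^ (2 * K) := by positivity
  rw [← le_div_iff₀ hpos] at h4
  refine h4.trans ?_
  rw [div_le_iff₀ hpos]
  have h6 : 2 ^ k * (8 / (3 * δ)) ^ (2 * K) * (Z / (b : ℝ) ^ K + (m : ℝ) ^ (2 * K))
      * (δ * b / 2) ^ (2 * K)
      = 2 ^ k * ((4 / 3 : ℝ) ^ (2 * K) *
        (Z * (b : ℝ) ^ K + (b : ℝ) ^ (2 * K) * (m : ℝ) ^ (2 * K))) := by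
    have h7 : (8 / (3 * δ)) ^ (2 * K) * (δ * b / 2) ^ (2 * K)
        = (4 / 3 : ℝ) ^ (2 * K) * (b : ℝ) ^ (2 * K) := by
      rw [← mul_pow, ← mul_pow]
      congr 1
      field_simp
      ring
    have h8 : (Z / (b : ℝ) ^ K) * (b : ℝ) ^ (2 * K) = Z * (b : ℝ) ^ K := by
      rw [two_mul, pow_add]
      field_simp
    calc _ = 2 ^ k * (Z / (b : ℝ) ^ K + (m : ℝ) ^ (2 * K)) *
          ((8 / (3 * δ)) ^ (2 * K) * (δ * b / 2) ^ (2 * K)) := by ring
      _ = 2 ^ k * (4 / 3 : ℝ) ^ (2 * K) * ((Z / (b : ℝ) ^ K) * (b : ℝ) ^ (2 * K)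
          + (m : ℝ) ^ (2 * K) * (b : ℝ) ^ (2 * K)) := by rw [h7]; ring
      _ = _ := by rw [h8]; ring
  rw [h6]
  apply mul_le_mul_of_nonneg_right h5
  positivity

end MPaaa0df
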