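import Pool.Agent.W_MP_aaa0df_nt.Defs

/-!
# The splitting condition and the Jacobi symbol (no further dependencies)
-/

set_option autoImplicit false

namespace MPaaa0df

open Finset Real

lemma split_iff {d : ℤ} (hd : d % 4 = 0 ∨ d % 4 = 1) {p : ℕ} (hp : p.Prime) (hp2 : p ≠ 2)
    (hpd : ¬ ((p : ℤ) ∣ d)) :
    (∃ x : ℤ, (4 * (p : ℤ)) ∣ x ^ 2 - d) ↔ jacobiSym d p = 1 := by
  have hpF : Fact p.Prime := ⟨hp⟩
  have h0 : (d : ZMod p) ≠ 0 := by
    intro h
    exact hpd ((ZMod.intCast_zmod_eq_zero_iff_dvd d p).1 h)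
  rw [← jacobiSym.legendreSym.to_jacobiSym, legendreSym.eq_one_iff p h0]
  constructor
  · rintro ⟨x, hx⟩
    refine ⟨(x : ZMod p), ?_⟩
    have h1 : (p : ℤ) ∣ x ^ 2 - d := (Dvd.intro_left 4 rfl).trans hx
    have h2 := (ZMod.intCast_zmod_eq_zero_iff_dvd _ p).2 h1
    push_cast at h2
    linear_combination -h2
  · rintro ⟨y, hy⟩
    obtain ⟨x, rfl⟩ := ZMod.intCast_surjective y
    have h1 : (p : ℤ) ∣ x ^ 2 - d := by
      rw [← ZMod.intCast_zmod_eq_zero_iff_dvd]
      push_cast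
      rw [hy]; ring
    have hodd : (p : ℤ) % 2 = 1 := by
      have := hp.eq_two_or_odd
      omega
    -- adjust parity
    have hex : ∃ z : ℤ, (p : ℤ) ∣ z ^ 2 - d ∧ z % 2 = d % 2 := by
      by_cases hpar : x % 2 = d % 2
      · exact ⟨x, h1, hpar⟩
      · refine ⟨x + p, ?_, by omega⟩
        have : (x + p) ^ 2 - d = (x ^ 2 - d) + p * (2 * x + p) := by ring
        rw [this]
        exact dvd_add h1 (Dvd.intro _ rfl)
    obtain ⟨z, hz1, hz2⟩ := hex
    refine ⟨z, ?_⟩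
    have h4 : (4 : ℤ) ∣ z ^ 2 - d := by
      rcases hd with hd | hd
      · have : z % 2 = 0 := by omega
        obtain ⟨t, ht⟩ := Int.dvd_of_emod_eq_zero this
        obtain ⟨u, hu⟩ := Int.dvd_of_emod_eq_zero hd
        exact ⟨t ^ 2 - u, by rw [ht, hu]; ring⟩
      · have : (z - 1) % 2 = 0 := by omega
        obtain ⟨t, ht⟩ := Int.dvd_of_emod_eq_zero this
        have : (d - 1) % 4 = 0 := by omega
        obtain ⟨u, hu⟩ := Int.dvd_of_emod_eq_zero this
        exact ⟨t ^ 2 + t - u, by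
          have e1 : z = 2 * t + 1 := by omega
          have e2 : d = 4 * u + 1 := by omega
          rw [e1, e2]; ring⟩
    apply IsCoprime.mul_dvd _ h4 hz1
    have hc : Nat.Coprime 4 p := by
      have : Nat.Coprime 2 p := (Nat.coprime_primes Nat.prime_two hp).2 (Ne.symm hp2)
      exact (this.pow_left 2 : Nat.Coprime (2 ^ 2) p)
    exact_mod_cast Nat.isCoprime_iff_coprime.2 hc

open Classical in
lemma primeCount_eq (y : ℝ) : primeCount y = (Nat.primesBelow ⌈y⌉₊).card := by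
  unfold primeCount
  rw [← Set.ncard_coe_finset]
  congr 1
  ext p
  simp only [Set.mem_ofPred_eq, Finset.mem_coe, Nat.mem_primesBelow, Nat.lt_ceil]
  tauto

open Classical in
lemma splitCount_eq (d : ℤ) (y : ℝ) : splitCount d y = ((Nat.primesBelow ⌈y⌉₊).filter
    (fun p : ℕ => ¬ ((p : ℤ) ∣ d) ∧ ∃ x : ℤ, (4 * (p : ℤ)) ∣ x ^ 2 - d)).card := by
  unfold splitCount
  rw [← Set.ncard_coe_finset]
  congr 1
  ext p
  simp only [Set.mem_ofPred_eq, Finset.mem_coe, Nat.mem_primesBelow, Nat.lt_ceil,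
    Finset.mem_filter]
  tauto

end MPaaa0df
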