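import Pool.Agent.W_MP_aaa0df_nt.EBound
import Pool.Agent.W_MP_aaa0df_nt.RelA

set_option autoImplicit false

namespace MPaaa0df

open Finset Real

/-- comparison of `2 N(d) - π` and the character sum -/
lemma rel_main {a b c : ℤ} {X : ℝ} (hΔ : b ^ 2 - 4 * a * c ≠ 0)
    (hΔX : |(((b ^ 2 - 4 * a * c : ℤ)) : ℝ)| ≤ 5 * X ^ 2) {n : ℤ}
    (hf0 : ff a b c n ≠ 0) (hf : ff a b c n % 4 = 0 ∨ ff a b c n % 4 = 1)
    (hfX : |((ff a b c n : ℤ) : ℝ)| ≤ X) (y : ℝ) (m : ℕ) (hm : m = ⌈y⌉₊) :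
    |2 * (splitCount (ff a b c n) y : ℝ) - primeCount y| ≤
      |∑ p ∈ PP (b ^ 2 - 4 * a * c) m, chi a b c p n| + 1 + 2 * log (5 * X ^ 2) + 2 * log X := by
  classical
  set d := ff a b c n with hd
  set P := PP (b ^ 2 - 4 * a * c) m with hP
  rw [primeCount_eq, splitCount_eq, ← hm]
  set F := m.primesBelow with hF
  have hPF : P ⊆ F := Finset.filter_subset _ _
  set σ : ℕ → ℝ := fun p => if (¬ ((p : ℤ) ∣ d) ∧ ∃ x : ℤ, (4 * (p : ℤ)) ∣ x ^ 2 - d) then 1 else -1
    with hσ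
  have h1 : 2 * ((F.filter (fun p : ℕ => ¬ ((p : ℤ) ∣ d) ∧
      ∃ x : ℤ, (4 * (p : ℤ)) ∣ x ^ 2 - d)).card : ℝ) - F.card = ∑ p ∈ F, σ p := by
    have e1 : ∀ p ∈ F, σ p = 2 * (if (¬ ((p : ℤ) ∣ d) ∧ ∃ x : ℤ, (4 * (p : ℤ)) ∣ x ^ 2 - d)
        then (1 : ℝ) else 0) - 1 := by
      intro p _
      rw [hσ]
      simp only
      split_ifs <;> norm_num
    rw [Finset.sum_congr rfl e1, Finset.sum_sub_distrib, ← Finset.mul_sum, Finset.sum_const,
      nsmul_eq_mul, mul_one, Finset.sum_ite, Finset.sum_const_zero, add_zero, Finset.sum_const,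
      nsmul_eq_mul, mul_one]
  rw [h1]
  have hσ1 : ∀ p, |σ p| ≤ 1 := by
    intro p; rw [hσ]; simp only
    split_ifs <;> norm_num
  have h2 : ∑ p ∈ F, σ p = ∑ p ∈ F \ P, σ p + (∑ p ∈ P, (σ p - chi a b c p n)
      + ∑ p ∈ P, chi a b c p n) := by
    rw [← Finset.sum_add_distrib, ← Finset.sum_sdiff hPF]
    congr 1
    apply Finset.sum_congr rfl
    intro p _; ring
  have h3 : |∑ p ∈ F \ P, σ p| ≤ 1 + 2 * log (5 * X ^ 2) := by
    have e1 : ((F \ P).card : ℝ) ≤ 1 + 2 * log (5 * X ^ 2) := by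
      have e2 := PP_card hΔ hΔX m
      rw [Finset.card_sdiff_of_subset hPF, Nat.cast_sub (Finset.card_le_card hPF)]
      linarith
    calc |∑ p ∈ F \ P, σ p| ≤ ∑ p ∈ F \ P, |σ p| := Finset.abs_sum_le_sum_abs _ _
      _ ≤ ∑ _p ∈ F \ P, (1 : ℝ) := Finset.sum_le_sum (fun p _ => hσ1 p)
      _ = (F \ P).card := by rw [Finset.sum_const, nsmul_eq_mul, mul_one]
      _ ≤ _ := e1
  have h4 : |∑ p ∈ P, (σ p - chi a b c p n)| ≤ 2 * log X := by
    have e1 : ∀ p ∈ P, |σ p - chi a b c p n| ≤ (if (p : ℤ) ∣ d then 1 else 0) := by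
      intro p hp
      rw [hP, PP, Finset.mem_filter, Nat.mem_primesBelow] at hp
      obtain ⟨⟨_, hpp⟩, hp2, _⟩ := hp
      have hpF : Fact p.Prime := ⟨hpp⟩
      unfold chi
      rw [← hd]
      by_cases hpd : (p : ℤ) ∣ d
      · rw [if_pos hpd]
        have e2 : jacobiSym d p = 0 := by
          rw [← jacobiSym.legendreSym.to_jacobiSym, legendreSym.eq_zero_iff,
            ZMod.intCast_zmod_eq_zero_iff_dvd]
          exact hpd
        rw [e2]
        rw [Int.cast_zero, sub_zero]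
        exact hσ1 p
      · rw [if_neg hpd]
        have e3 := split_iff hf hpp hp2 hpd
        rcases jacobiSym.trichotomy d p with h | h | h
        · exfalso
          rw [← jacobiSym.legendreSym.to_jacobiSym, legendreSym.eq_zero_iff,
            ZMod.intCast_zmod_eq_zero_iff_dvd] at h
          exact hpd h
        · have : σ p = 1 := by
            rw [hσ]; simp only; rw [if_pos ⟨hpd, e3.2 h⟩]
          rw [this, h]; norm_num
        · have : σ p = -1 := by
            rw [hσ]; simp only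
            rw [if_neg]
            rintro ⟨_, h'⟩
            rw [e3.1 h'] at h
            norm_num at h
          rw [this, h]; norm_num
    have e4 := omega_le hf0 hfX (P.filter (fun p : ℕ => (p : ℤ) ∣ d)) (by
      intro p hp
      rw [Finset.mem_filter] at hp
      exact ⟨Nat.prime_of_mem_primesBelow (hPF hp.1), hp.2⟩)
    calc |∑ p ∈ P, (σ p - chi a b c p n)| ≤ ∑ p ∈ P, |σ p - chi a b c p n| :=
          Finset.abs_sum_le_sum_abs _ _
      _ ≤ ∑ p ∈ P, (if (p : ℤ) ∣ d then (1 : ℝ) else 0) := Finset.sum_le_sum e1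
      _ = (P.filter (fun p : ℕ => (p : ℤ) ∣ d)).card := by
          rw [Finset.sum_ite, Finset.sum_const_zero, add_zero, Finset.sum_const, nsmul_eq_mul,
            mul_one]
      _ ≤ _ := e4
  rw [h2]
  have h5 := abs_add_le (∑ p ∈ F \ P, σ p) (∑ p ∈ P, (σ p - chi a b c p n)
      + ∑ p ∈ P, chi a b c p n)
  have h6 := abs_add_le (∑ p ∈ P, (σ p - chi a b c p n)) (∑ p ∈ P, chi a b c p n)
  linarith

end MPaaa0df
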